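import Pool.Agent.Lib.MP_d9449f_ag.WBDefs
import Pool.Agent.Lib.MP_d9449f_ag.OQ.ZG

section
/-!
# The algebraic part of SpecWB

Polynomials vanishing on a family of functions with a quasimodular transformation law whose error
terms have prescribed orders are zero.
-/
open MvPolynomial Filter Topology Finset

namespace Pool.Agent.Lib.MPd9449f

namespace WBM

/-- index set -/
abbrev V := ℕ × ℕ

/-- weight of a monomial -/
noncomputable abbrev W (m : V →₀ ℕ) : ℕ := Finsupp.weight wt m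

theorem W_eq (m : V →₀ ℕ) : W m = m.sum fun p n => n * wt p := by
  simp [W, Finsupp.weight_apply]

/-- top part: scaling limit of a polynomial -/
theorem tendsto_top (P : MvPolynomial V ℂ) (n : ℕ)
    (hP : ∀ m, coeff m P ≠ 0 → W m ≤ n) (ν : ℕ → ℂ)
    (hν : Tendsto (fun N => ‖ν N‖) atTop atTop) (hν0 : ∀ N, ν N ≠ 0)
    (x y : ℕ → V → ℂ) (y0 : V → ℂ) (hx : ∀ N p, x N p = ν N ^ (wt p) * y N p)
    (hy : ∀ p, Tendsto (fun N => y N p) atTop (𝓝 (y0 p))) :
    Tendsto (fun N => (ν N ^ n)⁻¹ * eval (x N) P) atTop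
      (𝓝 (eval y0 (weightedHomogeneousComponent wt n P))) := by
  classical
  have hinv : Tendsto (fun N => (ν N)⁻¹) atTop (𝓝 0) := by
    rw [tendsto_zero_iff_norm_tendsto_zero]
    simp only [norm_inv]
    exact hν.inv_tendsto_atTop
  have h1 : ∀ N, (ν N ^ n)⁻¹ * eval (x N) P = ∑ m ∈ P.support,
      ((ν N)⁻¹ ^ (n - W m)) * (coeff m P * ∏ i ∈ m.support, y N i ^ m i) := by
    intro N
    rw [eval_eq, mul_sum]
    refine sum_congr rfl fun m hm => ?_
    have hW : W m ≤ n := hP m (mem_support_iff.1 hm)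
    have h2 : ∏ i ∈ m.support, x N i ^ m i = ν N ^ (W m) * ∏ i ∈ m.support, y N i ^ m i := by
      rw [W_eq, Finsupp.sum, ← prod_pow_eq_pow_sum, ← prod_mul_distrib]
      refine prod_congr rfl fun i _ => ?_
      rw [hx, mul_pow, ← pow_mul, mul_comm (wt i)]
    rw [h2]
    have h3 : ν N ^ n = ν N ^ (n - W m) * ν N ^ W m := by rw [← pow_add]; congr 1; omega
    rw [h3, inv_pow]
    have := hν0 N
    field_simp
  simp only [h1]
  have h4 : eval y0 (weightedHomogeneousComponent wt n P) = ∑ m ∈ P.support,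
      (if W m = n then (1 : ℂ) else 0) * (coeff m P * ∏ i ∈ m.support, y0 i ^ m i) := by
    rw [weightedHomogeneousComponent_apply, map_sum, sum_filter]
    refine sum_congr rfl fun m _ => ?_
    split_ifs with h
    · rw [one_mul, eval_monomial, Finsupp.prod]
    · simp
  rw [h4]
  refine tendsto_finsetSum _ fun m hm => ?_
  have hW : W m ≤ n := hP m (mem_support_iff.1 hm)
  refine Tendsto.mul ?_ (tendsto_const_nhds.mul (tendsto_finsetProd _ fun i _ => (hy i).pow _))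
  split_ifs with h
  · simp [h]
  · have h5 : n - W m ≠ 0 := by omega
    have := hinv.pow (n - W m)
    rwa [zero_pow h5] at this

/-- scaling of weighted homogeneous polynomials -/
theorem eval_scale (Q : MvPolynomial V ℂ) (n : ℕ) (hQ : IsWeightedHomogeneous wt Q n) (c : ℂ)
    (x y : V → ℂ) (hx : ∀ p, x p = c ^ (wt p) * y p) : eval x Q = c ^ n * eval y Q := by
  rw [eval_eq, eval_eq, mul_sum]
  refine sum_congr rfl fun m hm => ?_
  have hW : W m = n := hQ (mem_support_iff.1 hm)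
  have h2 : ∏ i ∈ m.support, x i ^ m i = c ^ (W m) * ∏ i ∈ m.support, y i ^ m i := by
    rw [W_eq, Finsupp.sum, ← prod_pow_eq_pow_sum, ← prod_mul_distrib]
    refine prod_congr rfl fun i _ => ?_
    rw [hx, mul_pow, ← pow_mul, mul_comm (wt i)]
  rw [h2, hW]
  ring

/-- constant derivations -/
noncomputable def CD (d : V → ℂ) : Derivation ℂ (MvPolynomial V ℂ) (MvPolynomial V ℂ) :=
  mkDerivation ℂ fun p => C (d p)

/-- first order expansion -/
theorem tendsto_deriv (Q : MvPolynomial V ℂ) (c : ℕ → ℂ) (x δ : ℕ → V → ℂ) (x0 d : V → ℂ)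
    (hx : ∀ p, Tendsto (fun N => x N p) atTop (𝓝 (x0 p)))
    (hδ : ∀ p, Tendsto (fun N => δ N p) atTop (𝓝 0))
    (hd : ∀ p, Tendsto (fun N => c N * δ N p) atTop (𝓝 (d p))) :
    Tendsto (fun N => c N * (eval (fun p => x N p + δ N p) Q - eval (x N) Q)) atTop
      (𝓝 (eval x0 (CD d Q))) := by
  have hev : ∀ Q : MvPolynomial V ℂ, Tendsto (fun N => eval (x N) Q) atTop (𝓝 (eval x0 Q)) := by
    intro Q
    simp only [eval_eq]
    exact tendsto_finsetSum _ fun m _ =>
      tendsto_const_nhds.mul (tendsto_finsetProd _ fun i _ => (hx i).pow _)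
  induction Q using MvPolynomial.induction_on with
  | C a => simp
  | add P Q hP hQ =>
    rw [map_add, map_add]
    refine (hP.add hQ).congr fun N => ?_
    simp only [map_add]
    ring
  | mul_X P p hP =>
    have h1 : eval x0 (CD d (P * X p)) =
        eval x0 (CD d P) * (x0 p + 0) + eval x0 P * d p := by
      rw [CD, Derivation.leibniz, mkDerivation_X]
      simp only [smul_eq_mul, map_add, map_mul, eval_X, eval_C]
      ring
    rw [h1]
    refine ((hP.mul ((hx p).add (hδ p))).add ((hev P).mul (hd p))).congr fun N => ?_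
    simp only [map_mul, eval_X]
    ring

/-- the lowering derivation -/
noncomputable def E : Derivation ℂ (MvPolynomial V ℂ) (MvPolynomial V ℂ) :=
  mkDerivation ℂ fun p => C (p.2 : ℂ) * X (p.1, p.2 - 1)

/-- the one parameter family generated by `E` -/
noncomputable def D (s : ℂ) (y : V → ℂ) (p : V) : ℂ :=
  ∑ i ∈ range (p.2 + 1), (p.2.choose i : ℂ) * s ^ i * y (p.1, p.2 - i)

theorem D_zero (y : V → ℂ) : D 0 y = y := by
  funext p
  rw [D, sum_range_succ']
  simp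

/-- polynomial version of `D` -/
noncomputable def hP (y : V → ℂ) (p : V) : Polynomial ℂ :=
  ∑ i ∈ range (p.2 + 1), Polynomial.C ((p.2.choose i : ℂ) * y (p.1, p.2 - i)) * Polynomial.X ^ i

theorem eval_hP (y : V → ℂ) (s : ℂ) (p : V) : (hP y p).eval s = D s y p := by
  simp only [hP, D, Polynomial.eval_finsetSum, Polynomial.eval_mul, Polynomial.eval_C,
    Polynomial.eval_pow, Polynomial.eval_X]
  exact sum_congr rfl fun i _ => by ring

theorem derivative_hP (y : V → ℂ) (p : V) :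
    Polynomial.derivative (hP y p) = Polynomial.C (p.2 : ℂ) * hP y (p.1, p.2 - 1) := by
  obtain ⟨a, l⟩ := p
  cases l with
  | zero => simp [hP]
  | succ l =>
    simp only [hP, Polynomial.derivative_sum, Polynomial.derivative_C_mul,
      Polynomial.derivative_X_pow, Nat.add_sub_cancel]
    rw [sum_range_succ', mul_sum]
    simp only [Nat.cast_zero, Polynomial.C_0, zero_mul, mul_zero, add_zero]
    refine sum_congr rfl fun i hi => ?_
    have h1 : l + 1 - (i + 1) = l - i := by omega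
    have h2 : ((l + 1).choose (i + 1) : ℂ) * ((i + 1 : ℕ) : ℂ) = ((l + 1 : ℕ) : ℂ) * (l.choose i) := by
      exact_mod_cast (Nat.add_one_mul_choose_eq l i).symm
    rw [h1, Nat.add_sub_cancel]
    calc Polynomial.C ((((l + 1).choose (i + 1) : ℕ) : ℂ) * y (a, l - i)) *
          (Polynomial.C (((i + 1 : ℕ) : ℂ)) * Polynomial.X ^ i)
        = Polynomial.C ((((l + 1).choose (i + 1) : ℕ) : ℂ) * ((i + 1 : ℕ) : ℂ)) *
          Polynomial.C (y (a, l - i)) * Polynomial.X ^ i := by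
          simp only [Polynomial.C_mul]; ring
      _ = _ := by rw [h2]; simp only [Polynomial.C_mul]; ring

theorem derivative_aeval (y : V → ℂ) (Q : MvPolynomial V ℂ) :
    Polynomial.derivative (aeval (hP y) Q) = aeval (hP y) (E Q) := by
  induction Q using MvPolynomial.induction_on with
  | C a => simp [E, Polynomial.algebraMap_eq]
  | add P Q hP' hQ => simp only [map_add, hP', hQ]
  | mul_X P p hP' =>
    rw [map_mul, Polynomial.derivative_mul, hP', Derivation.leibniz]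
    have : E (X p) = C (p.2 : ℂ) * X (p.1, p.2 - 1) := by rw [E, mkDerivation_X]
    rw [this]
    simp only [smul_eq_mul, map_add, map_mul, MvPolynomial.aeval_X, MvPolynomial.aeval_C,
      Polynomial.algebraMap_eq, derivative_hP]
    ring

theorem eval_aeval_hP (y : V → ℂ) (s : ℂ) (Q : MvPolynomial V ℂ) :
    (aeval (hP y) Q).eval s = eval (D s y) Q := by
  induction Q using MvPolynomial.induction_on with
  | C a => simp [Polynomial.algebraMap_eq]
  | add P Q hP' hQ => simp only [map_add, Polynomial.eval_add, hP', hQ]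
  | mul_X P p hP' =>
    simp only [map_mul, Polynomial.eval_mul, hP', MvPolynomial.aeval_X, eval_hP, eval_X]

/-- if `E Q = 0` then `Q` is invariant -/
theorem eval_D_of_E (Q : MvPolynomial V ℂ) (hQ : E Q = 0) (s : ℂ) (y : V → ℂ) :
    eval (D s y) Q = eval y Q := by
  have h1 := derivative_aeval y Q
  rw [hQ, map_zero] at h1
  have h2 := Polynomial.eq_C_of_derivative_eq_zero h1
  rw [← eval_aeval_hP, h2, Polynomial.eval_C]
  conv_rhs => rw [← D_zero y, ← eval_aeval_hP, h2, Polynomial.eval_C]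

/-- order one term of the expansion along `D` -/
theorem tendsto_E (Q : MvPolynomial V ℂ) (y : V → ℂ) (hQ : eval y Q = 0) (ν : ℕ → ℂ)
    (hν : Tendsto (fun N => ‖ν N‖) atTop atTop) (hν0 : ∀ N, ν N ≠ 0) :
    Tendsto (fun N => ν N * eval (D (-1 / ν N) y) Q) atTop (𝓝 (-eval y (E Q))) := by
  have hinv : Tendsto (fun N => -1 / ν N) atTop (𝓝 0) := by
    rw [tendsto_zero_iff_norm_tendsto_zero]
    simp only [norm_div, norm_neg, norm_one, one_div]
    exact hν.inv_tendsto_atTop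
  set h := aeval (hP y) Q with hh
  have h0 : h.eval 0 = 0 := by rw [hh, eval_aeval_hP, D_zero, hQ]
  obtain ⟨f, hf⟩ : Polynomial.X ∣ h := by
    rw [Polynomial.X_dvd_iff, Polynomial.coeff_zero_eq_eval_zero, h0]
  have h1 : eval y (E Q) = f.eval 0 := by
    conv_lhs => rw [← D_zero y, ← eval_aeval_hP, ← derivative_aeval, ← hh, hf]
    simp [Polynomial.derivative_mul]
  rw [h1]
  have h2 : Tendsto (fun N => f.eval (-1 / ν N)) atTop (𝓝 (f.eval 0)) :=
    (f.continuous.tendsto 0).comp hinv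
  refine h2.neg.congr fun N => ?_
  rw [← eval_aeval_hP, ← hh, hf, Polynomial.eval_mul, Polynomial.eval_X]
  have := hν0 N
  field_simp

/-- degree bounds for derivations -/
theorem bd_deriv (φ : (V →₀ ℕ) →+ ℕ) (c n : ℕ) (f : V → MvPolynomial V ℂ)
    (hf : ∀ p m', coeff m' (f p) ≠ 0 → φ m' + c ≤ φ (Finsupp.single p 1)) (Q : MvPolynomial V ℂ)
    (hQ : ∀ m, coeff m Q ≠ 0 → φ m ≤ n + c) :
    ∀ m, coeff m (mkDerivation ℂ f Q) ≠ 0 → φ m ≤ n := by
  classical
  intro m hm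
  rw [Q.as_sum, map_sum, coeff_sum] at hm
  obtain ⟨m1, hm1, h1⟩ := exists_ne_zero_of_sum_ne_zero hm
  rw [mkDerivation_monomial, coeff_smul, Finsupp.sum, coeff_sum, smul_eq_mul] at h1
  obtain ⟨p, hp, h2⟩ := exists_ne_zero_of_sum_ne_zero (right_ne_zero_of_mul h1)
  rw [smul_eq_mul, coeff_mul] at h2
  obtain ⟨⟨u, v⟩, huv, h3⟩ := exists_ne_zero_of_sum_ne_zero h2
  have hu := left_ne_zero_of_mul h3
  have hv := right_ne_zero_of_mul h3
  rw [coeff_monomial] at hu
  have hu2 : m1 - Finsupp.single p 1 = u := by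
    by_contra hne
    rw [if_neg hne] at hu
    exact hu rfl
  rw [HasAntidiagonal.mem_antidiagonal] at huv
  have h4 := hf p v hv
  have h5 := hQ m1 (mem_support_iff.1 hm1)
  have h6 : m1 = u + Finsupp.single p 1 := by
    rw [← hu2]
    refine (tsub_add_cancel_of_le ?_).symm
    rw [Finsupp.single_le_iff]
    exact Nat.one_le_iff_ne_zero.2 (Finsupp.mem_support_iff.1 hp)
  have h7 : φ m1 = φ u + φ (Finsupp.single p 1) := by rw [h6, map_add]
  have h8 : φ m = φ u + φ v := by rw [← huv, map_add]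
  omega

/-- order of the error term -/
def ord (p : V) : ℕ := 2 * p.1 + 2 + p.2

theorem ord_wt_inj {p q : V} (h1 : ord p = ord q) (h2 : wt p = wt q) : p = q := by
  obtain ⟨a, l⟩ := p
  obtain ⟨c, m⟩ := q
  simp only [ord, wt] at h1 h2
  ext <;> simp <;> omega

theorem E_wt (Q : MvPolynomial V ℂ) (n : ℕ) (hQ : ∀ m, coeff m Q ≠ 0 → W m ≤ n + 1) :
    ∀ m, coeff m (E Q) ≠ 0 → W m ≤ n := by
  refine bd_deriv (Finsupp.weight wt) 1 n _ ?_ Q hQ
  rintro ⟨a, l⟩ m' hm'
  rw [coeff_C_mul, coeff_X] at hm'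
  have h1 := left_ne_zero_of_mul hm'
  have h2 := right_ne_zero_of_mul hm'
  have h3 : Finsupp.single (a, l - 1) 1 = m' := by
    by_contra hne
    exact h2 (if_neg hne)
  have h4 : l ≠ 0 := by rintro rfl; simp at h1
  rw [← h3]
  simp only [Finsupp.weight_single, wt, one_smul]
  omega

theorem E_deg (Q : MvPolynomial V ℂ) (n : ℕ) (hQ : ∀ m, coeff m Q ≠ 0 → Finsupp.degree m ≤ n) :
    ∀ m, coeff m (E Q) ≠ 0 → Finsupp.degree m ≤ n := by
  refine bd_deriv (Finsupp.degree) 0 n _ ?_ Q hQ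
  rintro ⟨a, l⟩ m' hm'
  rw [coeff_C_mul, coeff_X] at hm'
  have h2 := right_ne_zero_of_mul hm'
  have h3 : Finsupp.single (a, l - 1) 1 = m' := by
    by_contra hne
    exact h2 (if_neg hne)
  rw [← h3]
  simp

theorem C_deg (d : V → ℂ) (Q : MvPolynomial V ℂ) (n : ℕ)
    (hQ : ∀ m, coeff m Q ≠ 0 → Finsupp.degree m ≤ n + 1) :
    ∀ m, coeff m (CD d Q) ≠ 0 → Finsupp.degree m ≤ n := by
  refine bd_deriv (Finsupp.degree) 1 n _ ?_ Q hQ
  rintro p m' hm'
  rw [coeff_C] at hm'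
  have h3 : 0 = m' := by
    by_contra hne
    exact hm' (if_neg hne)
  rw [← h3]
  simp

/-- coefficients of a constant derivation -/
theorem coeff_C_deriv (d : V → ℂ) (Q : MvPolynomial V ℂ) (m : V →₀ ℕ) :
    coeff m (CD d Q) =
      ∑ p ∈ Q.vars, d p * (coeff (m + Finsupp.single p 1) Q * (m p + 1)) := by
  classical
  have h3 : ∀ (s : Finset V) (R : MvPolynomial V ℂ),
      (∑ p ∈ s, (C (d p) : MvPolynomial V ℂ) • (pderiv p :
      Derivation ℂ (MvPolynomial V ℂ) (MvPolynomial V ℂ))) R =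
      ∑ p ∈ s, C (d p) * pderiv p R := by
    intro s R
    induction s using Finset.induction_on with
    | empty => simp
    | insert a s ha ih =>
      rw [sum_insert ha, sum_insert ha, Derivation.add_apply, ih]
      rfl
  have h1 : CD d Q =
      (∑ p ∈ Q.vars, (C (d p) : MvPolynomial V ℂ) • (pderiv p :
        Derivation ℂ (MvPolynomial V ℂ) (MvPolynomial V ℂ))) Q := by
    refine derivation_eq_of_forall_mem_vars fun i hi => ?_
    rw [CD, mkDerivation_X, h3, sum_eq_single i]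
    · simp
    · intro j _ hj
      rw [pderiv_X_of_ne hj.symm, mul_zero]
    · intro h; exact absurd hi h
  rw [h1, h3, coeff_sum]
  refine sum_congr rfl fun p _ => ?_
  rw [coeff_C_mul, coeff_pderiv]

/-- a weighted homogeneous polynomial killed by a constant derivation supported on variables of
one order does not contain these variables -/
theorem notMem_vars (d : V → ℂ) (r : ℕ) (hd : ∀ p, ord p = r → d p ≠ 0)
    (hd' : ∀ p, ord p ≠ r → d p = 0) (Q : MvPolynomial V ℂ) (n : ℕ)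
    (hQ : IsWeightedHomogeneous wt Q n) (h0 : CD d Q = 0) :
    ∀ p ∈ Q.vars, ord p ≠ r := by
  classical
  intro p hp hr
  obtain ⟨m, hm, hpm⟩ := mem_vars_iff_mem_support p |>.1 hp
  have hpm' : Finsupp.single p 1 ≤ m := by
    rw [Finsupp.single_le_iff]
    exact Nat.one_le_iff_ne_zero.2 (Finsupp.mem_support_iff.1 hpm)
  set μ := m - Finsupp.single p 1 with hμ
  have hmμ : μ + Finsupp.single p 1 = m := tsub_add_cancel_of_le hpm'
  have h1 := coeff_C_deriv d Q μ
  rw [h0, coeff_zero, sum_eq_single p, hmμ] at h1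
  · have h2 : (μ p : ℂ) + 1 ≠ 0 := Nat.cast_add_one_ne_zero (μ p)
    exact absurd h1.symm (mul_ne_zero (hd p hr) (mul_ne_zero (mem_support_iff.1 hm) h2))
  · intro q _ hq
    by_cases hqr : ord q = r
    · by_cases hc : coeff (μ + Finsupp.single q 1) Q = 0
      · rw [hc]; ring
      · have h3 := hQ hc
        have h4 := hQ (mem_support_iff.1 hm)
        rw [← hmμ] at h4
        rw [map_add, Finsupp.weight_single] at h3 h4
        refine absurd (ord_wt_inj (hqr.trans hr.symm) ?_) hq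
        simp only [one_smul] at h3 h4
        omega
    · rw [hd' q hqr]; ring
  · intro h; exact absurd hp h

/-- norms of `w + N` -/
theorem tendsto_norm_add (w : UpperHalfPlane) :
    Tendsto (fun N : ℕ => ‖(w : ℂ) + N‖) atTop atTop := by
  have h1 : Tendsto (fun N : ℕ => (N : ℝ) - ‖(w : ℂ)‖) atTop atTop :=
    tendsto_atTop_add_const_right _ _ tendsto_natCast_atTop_atTop
  refine tendsto_atTop_mono (fun N => ?_) h1
  have h2 := norm_sub_norm_le (N : ℂ) (-(w : ℂ))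
  rw [norm_neg, Complex.norm_natCast, sub_neg_eq_add, add_comm (N : ℂ)] at h2
  exact h2

theorem add_ne_zero' (w : UpperHalfPlane) (N : ℕ) : (w : ℂ) + N ≠ 0 := by
  intro h
  have h1 := congrArg Complex.im h
  simp only [Complex.add_im, Complex.natCast_im, add_zero, Complex.zero_im] at h1
  exact absurd h1 (ne_of_gt w.im_pos)

theorem tendsto_neg_inv (w : UpperHalfPlane) :
    Tendsto (fun N : ℕ => -1 / ((w : ℂ) + N)) atTop (𝓝 0) := by
  rw [tendsto_zero_iff_norm_tendsto_zero]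
  simp only [norm_div, norm_neg, norm_one, one_div]
  exact (tendsto_norm_add w).inv_tendsto_atTop

theorem tendsto_D (y : V → ℂ) (w : UpperHalfPlane) (p : V) :
    Tendsto (fun N : ℕ => D (-1 / ((w : ℂ) + N)) y p) atTop (𝓝 (y p)) := by
  have h1 : Tendsto (fun N : ℕ => (hP y p).eval (-1 / ((w : ℂ) + N))) atTop
      (𝓝 ((hP y p).eval 0)) := ((hP y p).continuous.tendsto 0).comp (tendsto_neg_inv w)
  simp only [eval_hP, D_zero] at h1
  exact h1

/-- abstract form of the transformation law -/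
structure Law (g : V → UpperHalfPlane → ℂ) (u : UpperHalfPlane → ℕ → UpperHalfPlane)
    (ε : V → UpperHalfPlane → ℕ → ℂ) (b : V → ℂ) : Prop where
  ne : ∀ p, b p ≠ 0
  tr : ∀ (w : UpperHalfPlane) (N : ℕ) (p : V), g p (u w N) = ((w : ℂ) + N) ^ (wt p) *
    (D (-1 / ((w : ℂ) + N)) (fun q => g q w) p + ε p w N)
  lim : ∀ (p : V) (w : UpperHalfPlane),
    Tendsto (fun N : ℕ => ((w : ℂ) + N) ^ (ord p) * ε p w N) atTop (𝓝 (b p))

section
variable {g : V → UpperHalfPlane → ℂ} {u : UpperHalfPlane → ℕ → UpperHalfPlane}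
    {ε : V → UpperHalfPlane → ℕ → ℂ} {b : V → ℂ}

/-- lower powers kill the error -/
theorem Law.lim' (h : Law g u ε b) (p : V) (w : UpperHalfPlane) (r : ℕ) (hr : r < ord p) :
    Tendsto (fun N : ℕ => ((w : ℂ) + N) ^ r * ε p w N) atTop (𝓝 0) := by
  have h1 := h.lim p w
  have h2 : Tendsto (fun N : ℕ => ((w : ℂ) + N)⁻¹) atTop (𝓝 0) := by
    have := (tendsto_neg_inv w).neg
    rw [neg_zero] at this
    refine this.congr fun N => ?_
    rw [neg_div, neg_neg, one_div]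
  have h3 := (h2.pow (ord p - r)).mul h1
  have h4 : ord p - r ≠ 0 := by omega
  rw [zero_pow h4, zero_mul] at h3
  refine h3.congr fun N => ?_
  have h5 := add_ne_zero' w N
  have h6 : ((w : ℂ) + N) ^ ord p = ((w : ℂ) + N) ^ (ord p - r) * ((w : ℂ) + N) ^ r := by
    rw [← pow_add]; congr 1; omega
  rw [h6, inv_pow]
  field_simp

theorem two_le_ord (p : V) : 2 ≤ ord p := by simp only [ord]; omega

theorem Law.lim0 (h : Law g u ε b) (p : V) (w : UpperHalfPlane) :
    Tendsto (fun N : ℕ => ε p w N) atTop (𝓝 0) := by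
  have := h.lim' p w 0 (by have := two_le_ord p; omega)
  simpa using this

/-- the top part of a polynomial vanishing on `g` vanishes on `g` -/
theorem Law.top (h : Law g u ε b) (Q : MvPolynomial V ℂ) (n : ℕ)
    (hQn : ∀ m, coeff m Q ≠ 0 → W m ≤ n) (hQ : ∀ w, eval (fun p => g p w) Q = 0)
    (w : UpperHalfPlane) : eval (fun p => g p w) (weightedHomogeneousComponent wt n Q) = 0 := by
  have h1 := tendsto_top Q n hQn (fun N => (w : ℂ) + N) (tendsto_norm_add w) (add_ne_zero' w)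
    (fun N p => g p (u w N)) (fun N p => D (-1 / ((w : ℂ) + N)) (fun q => g q w) p + ε p w N)
    (fun p => g p w) (fun N p => h.tr w N p)
    (fun p => by simpa using (tendsto_D (fun q => g q w) w p).add (h.lim0 p w))
  simp only [hQ, mul_zero] at h1
  exact (tendsto_nhds_unique tendsto_const_nhds h1).symm

/-- a homogeneous relation in the transformed form -/
theorem Law.tr0 (h : Law g u ε b) (Q : MvPolynomial V ℂ) (n : ℕ)
    (hQn : IsWeightedHomogeneous wt Q n) (hQ : ∀ w, eval (fun p => g p w) Q = 0)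
    (w : UpperHalfPlane) (N : ℕ) :
    eval (fun p => D (-1 / ((w : ℂ) + N)) (fun q => g q w) p + ε p w N) Q = 0 := by
  have h1 := eval_scale Q n hQn ((w : ℂ) + N) (fun p => g p (u w N)) _ (fun p => h.tr w N p)
  rw [hQ] at h1
  rcases mul_eq_zero.1 h1.symm with h2 | h2
  · exact absurd h2 (pow_ne_zero _ (add_ne_zero' w N))
  · exact h2

/-- `E` preserves homogeneous relations -/
theorem Law.rel_E (h : Law g u ε b) (Q : MvPolynomial V ℂ) (n : ℕ)
    (hQn : IsWeightedHomogeneous wt Q n) (hQ : ∀ w, eval (fun p => g p w) Q = 0)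
    (w : UpperHalfPlane) : eval (fun p => g p w) (E Q) = 0 := by
  have h1 := tendsto_deriv Q (fun N => (w : ℂ) + N)
    (fun N p => D (-1 / ((w : ℂ) + N)) (fun q => g q w) p) (fun N p => ε p w N)
    (fun p => g p w) (fun _ => 0) (fun p => tendsto_D (fun q => g q w) w p)
    (fun p => h.lim0 p w) (fun p => by
      have := h.lim' p w 1 (by have := two_le_ord p; omega)
      simpa using this)
  have h2 := tendsto_E Q (fun p => g p w) (hQ w) (fun N => (w : ℂ) + N) (tendsto_norm_add w)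
    (add_ne_zero' w)
  have h3 : CD (fun _ : V => (0 : ℂ)) Q = 0 := by
    have : CD (fun _ : V => (0 : ℂ)) = 0 := by
      refine derivation_ext fun i => ?_
      rw [CD, mkDerivation_X]
      simp
    rw [this]; rfl
  rw [h3, map_zero] at h1
  simp only [h.tr0 Q n hQn hQ w, zero_sub] at h1
  have h4 := h1.add h2
  have h5 : (fun N : ℕ => ((w : ℂ) + N) * -(eval fun p => D (-1 / ((w : ℂ) + N)) (fun q => g q w) p) Q
      + ((w : ℂ) + N) * (eval (D (-1 / ((w : ℂ) + N)) fun p => g p w)) Q) = fun _ => 0 := by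
    funext N
    ring
  rw [h5, zero_add] at h4
  have h6 := tendsto_nhds_unique tendsto_const_nhds h4
  exact neg_eq_zero.1 h6.symm

/-- the main step -/
theorem Law.step (h : Law g u ε b) (d : ℕ)
    (ih : ∀ Q : MvPolynomial V ℂ, (∀ m, coeff m Q ≠ 0 → Finsupp.degree m ≤ d) →
      (∀ w, eval (fun p => g p w) Q = 0) → Q = 0)
    (Q : MvPolynomial V ℂ) (hQd : ∀ m, coeff m Q ≠ 0 → Finsupp.degree m ≤ d + 1) (n : ℕ)
    (hQn : IsWeightedHomogeneous wt Q n) (hQ : ∀ w, eval (fun p => g p w) Q = 0)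
    (hE : E Q = 0) : Q = 0 := by
  classical
  by_contra hne
  have hv : Q.vars.Nonempty := by
    rw [Finset.nonempty_iff_ne_empty]
    intro hv
    have hc := vars_eq_empty_iff_eq_C.1 hv
    have h1 := hQ UpperHalfPlane.I
    rw [hc, eval_C] at h1
    exact hne (by rw [hc, h1, C_0])
  obtain ⟨p0, hp0, hmin⟩ := exists_min_image Q.vars ord hv
  set r := ord p0 with hr
  set dd : V → ℂ := fun p => if ord p = r then b p else 0 with hdd
  have hCD : CD dd Q = 0 := by
    refine ih _ (C_deg dd Q d hQd) fun w => ?_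
    set δ : ℕ → V → ℂ := fun N p => if r ≤ ord p then ε p w N else 0 with hδ
    have h1 := tendsto_deriv Q (fun N => ((w : ℂ) + N) ^ r)
      (fun N p => D (-1 / ((w : ℂ) + N)) (fun q => g q w) p) δ
      (fun p => g p w) dd (fun p => tendsto_D (fun q => g q w) w p)
      (fun p => by
        simp only [hδ]
        split_ifs with hh
        · exact h.lim0 p w
        · exact tendsto_const_nhds)
      (fun p => by
        simp only [hδ, hdd]
        by_cases h2 : ord p = r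
        · have h3 : r ≤ ord p := by omega
          simp only [h2, if_true, le_refl]
          rw [← h2]
          exact h.lim p w
        · by_cases h3 : r ≤ ord p
          · simp only [h2, h3, if_true, if_false]
            exact h.lim' p w r (by omega)
          · simp only [h2, h3, if_false, mul_zero]
            exact tendsto_const_nhds)
    have h2 : ∀ N : ℕ, ((w : ℂ) + N) ^ r *
        (eval (fun p => D (-1 / ((w : ℂ) + N)) (fun q => g q w) p + δ N p) Q -
          eval (fun p => D (-1 / ((w : ℂ) + N)) (fun q => g q w) p) Q) = 0 := by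
      intro N
      have h3 : eval (fun p => D (-1 / ((w : ℂ) + N)) (fun q => g q w) p + δ N p) Q =
          eval (fun p => D (-1 / ((w : ℂ) + N)) (fun q => g q w) p + ε p w N) Q := by
        refine eval₂Hom_congr' rfl (fun p hp _ => ?_) rfl
        simp only [hδ]
        rw [if_pos (hmin p hp)]
      have h4 := eval_D_of_E Q hE (-1 / ((w : ℂ) + N)) (fun q => g q w)
      rw [h3, h.tr0 Q n hQn hQ w N]
      have h5 : eval (fun p => D (-1 / ((w : ℂ) + N)) (fun q => g q w) p) Q = 0 := by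
        rw [← hQ w, ← h4]
      rw [h5]
      simp
    rw [tendsto_congr h2] at h1
    exact (tendsto_nhds_unique tendsto_const_nhds h1).symm
  refine notMem_vars dd r (fun p hp => ?_) (fun p hp => ?_) Q n hQn hCD p0 hp0 rfl
  · simp only [hdd, if_pos hp]; exact h.ne p
  · simp only [hdd, if_neg hp]

/-- algebraic independence -/
theorem Law.indep (h : Law g u ε b) (Q : MvPolynomial V ℂ)
    (hQ : ∀ w, eval (fun p => g p w) Q = 0) : Q = 0 := by
  classical
  have key : ∀ d : ℕ, ∀ Q : MvPolynomial V ℂ, (∀ m, coeff m Q ≠ 0 → Finsupp.degree m ≤ d) →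
      (∀ w, eval (fun p => g p w) Q = 0) → Q = 0 := by
    intro d
    induction d with
    | zero =>
      intro Q hQd hQ
      have h1 : Q = C (coeff 0 Q) := by
        ext m
        rw [coeff_C]
        split_ifs with hm
        · rw [hm]
        · by_contra hc
          have h2 := hQd m hc
          have h3 : m = 0 := by
            rw [← Finsupp.degree_eq_zero_iff]
            omega
          exact hm h3.symm
      have h2 := hQ UpperHalfPlane.I
      rw [h1, eval_C] at h2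
      rw [h1, h2, C_0]
    | succ d ih =>
      have key2 : ∀ n : ℕ, ∀ Q : MvPolynomial V ℂ,
          (∀ m, coeff m Q ≠ 0 → Finsupp.degree m ≤ d + 1) → (∀ m, coeff m Q ≠ 0 → W m < n) →
          (∀ w, eval (fun p => g p w) Q = 0) → Q = 0 := by
        intro n
        induction n with
        | zero =>
          intro Q _ hQn _
          ext m
          by_contra hc
          exact absurd (hQn m hc) (by omega)
        | succ n ih2 =>
          intro Q hQd hQn hQ
          set T := weightedHomogeneousComponent wt n Q with hT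
          have hT0 := h.top Q n (fun m hm => Nat.lt_succ_iff.1 (hQn m hm)) hQ
          have hTh : IsWeightedHomogeneous wt T n :=
            weightedHomogeneousComponent_isWeightedHomogeneous n Q
          have hTd : ∀ m, coeff m T ≠ 0 → Finsupp.degree m ≤ d + 1 := by
            intro m hm
            refine hQd m fun h0 => hm ?_
            rw [hT, coeff_weightedHomogeneousComponent, h0]
            simp
          have hET : E T = 0 := by
            refine ih2 _ (E_deg T (d + 1) hTd) ?_ (h.rel_E T n hTh hT0)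
            intro m hm
            rcases Nat.eq_zero_or_pos n with hn | hn
            · exfalso
              subst hn
              have h1 : T = C (coeff 0 T) := by
                ext m
                rw [coeff_C]
                split_ifs with hm
                · rw [hm]
                · by_contra hc
                  have h2 := hTh hc
                  have h3 : m = 0 := by
                    ext p
                    by_contra hp
                    have h4 : wt p ≤ Finsupp.weight wt m :=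
                      Finsupp.le_weight_of_ne_zero' wt hp
                    have h5 : 0 < wt p := by simp only [wt]; omega
                    omega
                  exact hm h3.symm
              rw [h1, derivation_C] at hm
              exact hm (coeff_zero _)
            · have h1 := E_wt T (n - 1) (fun m hm => by
                have h2 := hTh hm
                have h3 : W m = n := h2
                omega) m hm
              omega
          have hT1 : T = 0 := h.step d ih T hTd n hTh hT0 hET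
          refine ih2 Q hQd (fun m hm => ?_) hQ
          have h1 := hQn m hm
          refine lt_of_le_of_ne (Nat.lt_succ_iff.1 h1) fun h2 => hm ?_
          have h3 : coeff m T = coeff m Q := by
            rw [hT, coeff_weightedHomogeneousComponent, if_pos h2]
          rw [← h3, hT1, coeff_zero]
      intro Q hQd hQ
      refine key2 ((Q.support.sup W) + 1) Q hQd (fun m hm => ?_) hQ
      exact Nat.lt_succ_iff.2 (le_sup (f := W) (mem_support_iff.2 hm))
  exact key (Q.support.sup Finsupp.degree) Q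
    (fun m hm => le_sup (f := Finsupp.degree) (mem_support_iff.2 hm)) hQ

end

end WBM

end Pool.Agent.Lib.MPd9449f
end

section
/-!
# The transformation law of odd weight Eisenstein series and their derivatives
-/
open Filter Topology Complex

namespace Pool.Agent.Lib.MPd9449f

namespace WBM

theorem summable_F (a b : ℕ) {r : ℂ} (hr : ‖r‖ < 1) :
    Summable fun c : ℕ+ × ℕ+ => ((c.1 : ℕ) : ℂ) ^ a * ((c.2 : ℕ) : ℂ) ^ b * r ^ (c.1 * c.2 : ℕ) := by
  obtain ⟨ρ, h1, h2⟩ := exists_between hr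
  have hρ : 0 < ρ := lt_of_le_of_lt (norm_nonneg r) h1
  have h3 : ‖‖r‖ / ρ‖ < 1 := by
    rw [Real.norm_of_nonneg (by positivity), div_lt_one hρ]; exact h1
  have h4 := (summable_pow_mul_geometric_of_norm_lt_one (R := ℝ) a h3).tendsto_atTop_zero
  obtain ⟨M, hM⟩ := h4.bddAbove_range
  have hM' : ∀ n : ℕ, (n : ℝ) ^ a * ‖r‖ ^ n ≤ M * ρ ^ n := by
    intro n
    have h5 : (n : ℝ) ^ a * (‖r‖ / ρ) ^ n ≤ M := hM ⟨n, rfl⟩
    have h6 : (n : ℝ) ^ a * ‖r‖ ^ n = (n : ℝ) ^ a * (‖r‖ / ρ) ^ n * ρ ^ n := by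
      rw [div_pow]; field_simp
    rw [h6]
    exact mul_le_mul_of_nonneg_right h5 (by positivity)
  have h7 : Summable fun c : ℕ+ × ℕ+ => (((c.2 : ℕ) : ℝ) ^ b * ρ ^ (c.1 * c.2 : ℕ)) := by
    have := summable_prod_mul_pow (𝕜 := ℝ) b (r := ρ) (by rwa [Real.norm_of_nonneg hρ.le])
    exact this
  refine Summable.of_norm_bounded (h7.mul_left M) fun c => ?_
  have hc1 : (1 : ℝ) ≤ ((c.1 : ℕ) : ℝ) := by exact_mod_cast c.1.2
  have hc2 : (1 : ℝ) ≤ ((c.2 : ℕ) : ℝ) := by exact_mod_cast c.2.2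
  rw [norm_mul, norm_mul, norm_pow, norm_pow, norm_pow, Complex.norm_natCast, Complex.norm_natCast]
  have h8 := hM' (c.1 * c.2 : ℕ)
  have h9 : ((c.1 : ℕ) : ℝ) ^ a ≤ (((c.1 * c.2 : ℕ) : ℕ) : ℝ) ^ a := by
    apply pow_le_pow_left₀ (by positivity)
    push_cast
    nlinarith
  calc ((c.1 : ℕ) : ℝ) ^ a * ((c.2 : ℕ) : ℝ) ^ b * ‖r‖ ^ (c.1 * c.2 : ℕ)
      ≤ (((c.1 * c.2 : ℕ) : ℕ) : ℝ) ^ a * ((c.2 : ℕ) : ℝ) ^ b * ‖r‖ ^ (c.1 * c.2 : ℕ) := by gcongr
    _ = (((c.1 * c.2 : ℕ) : ℕ) : ℝ) ^ a * ‖r‖ ^ (c.1 * c.2 : ℕ) * ((c.2 : ℕ) : ℝ) ^ b := by ring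
    _ ≤ M * ρ ^ (c.1 * c.2 : ℕ) * ((c.2 : ℕ) : ℝ) ^ b := by gcongr
    _ = M * (((c.2 : ℕ) : ℝ) ^ b * ρ ^ (c.1 * c.2 : ℕ)) := by ring

theorem Gfun_eq (p : V) {r : ℂ} (hr : ‖r‖ < 1) :
    Gfun p r = ∑' c : ℕ+ × ℕ+, ((c.1 : ℕ) : ℂ) ^ p.2 * ((c.2 : ℕ) : ℂ) ^ (2 * p.1 + 2 + p.2) *
      r ^ (c.1 * c.2 : ℕ) := by
  have h0 := summable_F p.2 (2 * p.1 + 2 + p.2) hr
  have h1 : Gfun p r = ∑' n : ℕ+, ((n : ℕ) : ℂ) ^ p.2 *
      (ArithmeticFunction.sigma (2 * p.1 + 2) (n : ℕ) : ℂ) * r ^ (n : ℕ) := by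
    rw [Gfun]
    refine (PNat.coe_injective.tsum_eq (f := fun n : ℕ => (n : ℂ) ^ p.2 *
      (ArithmeticFunction.sigma (2 * p.1 + 2) n : ℂ) * r ^ n) ?_).symm
    intro n hn
    rcases Nat.eq_zero_or_pos n with h | h
    · subst h
      simp at hn
    · exact ⟨⟨n, h⟩, rfl⟩
  have h2 := sigmaAntidiagonalEquivProd.summable_iff.2 h0
  have e1 := (sigmaAntidiagonalEquivProd.tsum_eq (fun c : ℕ+ × ℕ+ =>
    ((c.1 : ℕ) : ℂ) ^ p.2 * ((c.2 : ℕ) : ℂ) ^ (2 * p.1 + 2 + p.2) * r ^ (c.1 * c.2 : ℕ)))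
  have e2 := Summable.tsum_sigma h2
  rw [h1, ← e1]
  refine Eq.trans ?_ e2.symm
  refine tsum_congr fun n => ?_
  rw [tsum_fintype]
  simp only [Function.comp, sigmaAntidiagonalEquivProd, divisorsAntidiagonalFactors, Equiv.coe_fn_mk,
    PNat.mk_coe]
  rw [Finset.univ_eq_attach, (n : ℕ).divisorsAntidiagonal.sum_attach fun x : ℕ × ℕ =>
    ((x.1 : ℕ) : ℂ) ^ p.2 * ((x.2 : ℕ) : ℂ) ^ (2 * p.1 + 2 + p.2) * r ^ (x.1 * x.2)]
  have h3 : ((ArithmeticFunction.sigma (2 * p.1 + 2) (n : ℕ) : ℕ) : ℂ) =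
      ∑ x ∈ (n : ℕ).divisorsAntidiagonal, (x.2 : ℂ) ^ (2 * p.1 + 2) := by
    rw [ArithmeticFunction.sigma_apply, Nat.cast_sum,
      Nat.sum_divisorsAntidiagonal' (fun _ y => ((y : ℕ) : ℂ) ^ (2 * p.1 + 2))]
    exact Finset.sum_congr rfl fun x _ => by push_cast; rfl
  rw [h3, Finset.mul_sum, Finset.sum_mul]
  refine Finset.sum_congr rfl fun x hx => ?_
  have h4 := (Nat.mem_divisorsAntidiagonal.1 hx).1
  rw [← h4]
  push_cast
  ring

open Real in
/-- normalising constants -/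
noncomputable def cc (p : V) : ℂ :=
  (-2 * (π : ℂ) * I) ^ (2 * p.1 + 3 + p.2) / ((Nat.factorial (2 * p.1 + 2 + p.2) : ℕ) : ℂ)

theorem cc_ne (p : V) : cc p ≠ 0 := by
  refine div_ne_zero (pow_ne_zero _ ?_) (by exact_mod_cast Nat.factorial_ne_zero _)
  simp [Real.pi_ne_zero, I_ne_zero]

/-- normalised functions on the upper half plane -/
noncomputable def phi (p : V) (w : UpperHalfPlane) : ℂ :=
  cc p * Gfun p (cexp (2 * (Real.pi : ℂ) * I * w))

/-- lattice sums in one direction -/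
noncomputable def Lf (e : ℕ) (z : ℂ) : ℂ := ∑' n : ℤ, 1 / (z + n) ^ e

/-- the point `(m+1) w` -/
noncomputable def mulPt (m : ℕ) (w : UpperHalfPlane) : UpperHalfPlane :=
  ⟨((m : ℂ) + 1) * w, by
    have h1 : (((m : ℂ) + 1) * (w : ℂ)).im = ((m : ℝ) + 1) * (w : ℂ).im := by
      simp
    rw [h1]
    exact mul_pos (by positivity) w.im_pos⟩

theorem coe_mulPt (m : ℕ) (w : UpperHalfPlane) : ((mulPt m w : UpperHalfPlane) : ℂ) =
    ((m : ℂ) + 1) * w := rfl

theorem phi_eq (p : V) (w : UpperHalfPlane) :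
    phi p w = ∑' m : ℕ, ((m : ℂ) + 1) ^ p.2 * Lf (2 * p.1 + 3 + p.2) (((m : ℂ) + 1) * w) := by
  have hr := UpperHalfPlane.norm_exp_two_pi_I_lt_one w
  have h0 := summable_F p.2 (2 * p.1 + 2 + p.2) hr
  rw [phi, Gfun_eq p hr, h0.tsum_prod, ← tsum_mul_left]
  rw [tsum_pnat_eq_tsum_succ (f := fun m : ℕ => cc p * ∑' d : ℕ+, ((m : ℕ) : ℂ) ^ p.2 *
    ((d : ℕ) : ℂ) ^ (2 * p.1 + 2 + p.2) * cexp (2 * (Real.pi : ℂ) * I * w) ^ (m * d : ℕ))]
  refine tsum_congr fun m => ?_
  have h1 := EisensteinSeries.qExpansion_identity_pnat (k := 2 * p.1 + 2 + p.2) (by omega)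
    (mulPt m w)
  have h2 : 2 * p.1 + 2 + p.2 + 1 = 2 * p.1 + 3 + p.2 := by ring
  rw [h2, coe_mulPt] at h1
  rw [Lf, h1, cc]
  have h3 : ∀ d : ℕ+, (((m + 1 : ℕ) : ℕ) : ℂ) ^ p.2 * ((d : ℕ) : ℂ) ^ (2 * p.1 + 2 + p.2) *
      cexp (2 * (Real.pi : ℂ) * I * w) ^ ((m + 1) * d : ℕ) =
      ((m : ℂ) + 1) ^ p.2 * (((d : ℕ) : ℂ) ^ (2 * p.1 + 2 + p.2) *
        cexp (2 * (Real.pi : ℂ) * I * (((m : ℂ) + 1) * w)) ^ (d : ℕ)) := by
    intro d
    have h4 : cexp (2 * (Real.pi : ℂ) * I * (((m : ℂ) + 1) * w)) =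
        cexp (2 * (Real.pi : ℂ) * I * w) ^ (m + 1) := by
      rw [← Complex.exp_nat_mul]
      congr 1
      push_cast
      ring
    rw [h4, ← pow_mul]
    push_cast
    ring
  simp only [h3]
  rw [tsum_mul_left]
  ring

/-- two-dimensional sums -/
theorem summable_TT (ν : UpperHalfPlane) (a b s : ℕ) (h : a + b + 3 ≤ s) :
    Summable fun x : ℤ × ℤ => (x.1 : ℂ) ^ a * (x.2 : ℂ) ^ b / ((x.1 : ℂ) * ν + x.2) ^ s := by
  have h0 := (summable_prod_eisSummand (k := s - a - b) (by omega) ν).norm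
  have hr := EisensteinSeries.r_pos ν
  refine Summable.of_norm_bounded
    (h0.mul_left ((EisensteinSeries.r ν)⁻¹ ^ (a + b))) fun x => ?_
  by_cases hx : (![x.1, x.2] : Fin 2 → ℤ) = 0
  · have h1 : x.1 = 0 := by simpa using congrFun hx 0
    have h2 : x.2 = 0 := by simpa using congrFun hx 1
    have h3 : s ≠ 0 := by omega
    rw [h1, h2]
    simp only [Int.cast_zero, zero_mul, add_zero, zero_pow h3, div_zero, norm_zero]
    positivity
  · have h1 := EisensteinSeries.r_mul_max_le ν hx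
    simp only [Matrix.cons_val_zero, Matrix.cons_val_one] at h1
    set L := ‖(x.1 : ℂ) * ν + x.2‖ with hL
    have hxn : 0 < ‖(![x.1, x.2] : Fin 2 → ℤ)‖ := norm_pos_iff.2 hx
    have hL0 : 0 < L := lt_of_lt_of_le (mul_pos hr hxn) h1
    have h2 : ‖(![x.1, x.2] : Fin 2 → ℤ)‖ ≤ (EisensteinSeries.r ν)⁻¹ * L := by
      rw [inv_mul_eq_div, le_div_iff₀ hr, mul_comm]; exact h1
    have h3 : ‖(x.1 : ℂ)‖ ≤ (EisensteinSeries.r ν)⁻¹ * L := by
      refine le_trans ?_ h2
      have := norm_le_pi_norm (![x.1, x.2] : Fin 2 → ℤ) 0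
      simpa [Int.norm_eq_abs] using this
    have h4 : ‖(x.2 : ℂ)‖ ≤ (EisensteinSeries.r ν)⁻¹ * L := by
      refine le_trans ?_ h2
      have := norm_le_pi_norm (![x.1, x.2] : Fin 2 → ℤ) 1
      simpa [Int.norm_eq_abs] using this
    have h5 : ‖EisensteinSeries.eisSummand ((s - a - b : ℕ) : ℤ) ![x.1, x.2] ν‖ =
        (L ^ (s - a - b))⁻¹ := by
      rw [EisensteinSeries.eisSummand]
      simp only [Matrix.cons_val_zero, Matrix.cons_val_one, zpow_neg, zpow_natCast,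
        norm_inv, norm_pow, hL]
    rw [h5, norm_div, norm_mul, norm_pow, norm_pow, norm_pow, ← hL]
    have h6 : L ^ s = L ^ (a + b) * L ^ (s - a - b) := by
      rw [← pow_add]; congr 1; omega
    rw [h6, div_le_iff₀ (by positivity)]
    have h7 : (EisensteinSeries.r ν)⁻¹ ^ (a + b) * (L ^ (s - a - b))⁻¹ *
        (L ^ (a + b) * L ^ (s - a - b)) = ((EisensteinSeries.r ν)⁻¹ * L) ^ a *
          ((EisensteinSeries.r ν)⁻¹ * L) ^ b := by
      have : L ^ (s - a - b) ≠ 0 := by positivity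
      field_simp
      ring
    rw [h7]
    gcongr

/-- the summand -/
noncomputable def U (p : V) (ν : UpperHalfPlane) (n m : ℤ) : ℂ :=
  (m : ℂ) ^ p.2 / ((n : ℂ) * ν + m) ^ (2 * p.1 + 3 + p.2)

theorem summable_U (p : V) (ν : UpperHalfPlane) :
    Summable fun x : ℤ × ℤ => U p ν x.1 x.2 := by
  have h := summable_TT ν 0 p.2 (2 * p.1 + 3 + p.2) (by omega)
  simpa [U] using h

/-- the quadrant sum -/
noncomputable def Sf (p : V) (ν : UpperHalfPlane) : ℂ :=
  ∑' k : ℕ, ∑' m : ℕ, U p ν ((k : ℤ) + 1) ((m : ℤ) + 1)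

/-- odd zeta values -/
noncomputable def ze (a : ℕ) : ℂ := ∑' m : ℕ, 1 / ((m : ℂ) + 1) ^ (2 * a + 3)

/-- the point `-1/ν` -/
noncomputable def inv' (ν : UpperHalfPlane) : UpperHalfPlane :=
  ⟨-1 / (ν : ℂ), by
    have h1 : (-1 / (ν : ℂ)).im = (ν : ℂ).im / Complex.normSq (ν : ℂ) := by
      rw [Complex.div_im]
      simp [neg_div]
    rw [h1]
    exact div_pos ν.im_pos (Complex.normSq_pos.2 ν.ne_zero)⟩

theorem coe_inv' (ν : UpperHalfPlane) : ((inv' ν : UpperHalfPlane) : ℂ) = -1 / (ν : ℂ) := rfl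

theorem U_neg (p : V) (ν : UpperHalfPlane) (k m : ℕ) :
    U p ν ((k : ℤ) + 1) (-((m : ℤ) + 1)) = -U p ν (-((k : ℤ) + 1)) ((m : ℤ) + 1) := by
  rw [U, U]
  push_cast
  have h1 : ((k : ℂ) + 1) * (ν : ℂ) + -((m : ℂ) + 1) = (-1) * (-((k : ℂ) + 1) * ν + ((m : ℂ) + 1)) := by
    ring
  have h2 : -((m : ℂ) + 1) = (-1) * ((m : ℂ) + 1) := by ring
  rw [h1, mul_pow, h2, mul_pow]
  have h3 : (-1 : ℂ) ^ (2 * p.1 + 3 + p.2) = -(-1) ^ p.2 := by
    rw [pow_add, pow_add, pow_mul]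
    norm_num
  rw [h3]
  generalize (-((k : ℂ) + 1) * (ν : ℂ) + ((m : ℂ) + 1)) ^ (2 * p.1 + 3 + p.2) = X
  generalize ((m : ℂ) + 1) ^ p.2 = Y
  rcases neg_one_pow_eq_or ℂ p.2 with h | h <;> rw [h] <;> simp [div_neg, neg_div]

theorem phi_inv (p : V) (ν : UpperHalfPlane) :
    phi p (inv' ν) = (-1) ^ (2 * p.1 + 3 + p.2) * (ν : ℂ) ^ (2 * p.1 + 3 + p.2) *
      ∑' m : ℕ, ∑' n : ℤ, U p ν n ((m : ℤ) + 1) := by
  have hν := ν.ne_zero
  rw [phi_eq, ← tsum_mul_left]
  refine tsum_congr fun m => ?_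
  rw [Lf, ← tsum_mul_left, ← tsum_mul_left, ← (Equiv.neg ℤ).tsum_eq]
  refine tsum_congr fun n => ?_
  rw [Equiv.neg_apply, U, coe_inv']
  push_cast
  have h1 : ((m : ℂ) + 1) * (-1 / (ν : ℂ)) + -(n : ℂ) = (-1) * ((n : ℂ) * ν + ((m : ℂ) + 1)) / ν := by
    field_simp
    ring
  rw [h1, div_pow, mul_pow]
  have h2 : (-1 : ℂ) ^ (2 * p.1 + 3 + p.2) ≠ 0 := pow_ne_zero _ (by norm_num)
  have h3 : ((-1 : ℂ) ^ (2 * p.1 + 3 + p.2)) * (-1 : ℂ) ^ (2 * p.1 + 3 + p.2) = 1 := by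
    rw [← mul_pow]; norm_num
  rw [one_div_div]
  rw [div_eq_mul_inv, mul_inv, div_eq_mul_inv]
  have h4 : ((-1 : ℂ) ^ (2 * p.1 + 3 + p.2))⁻¹ = (-1 : ℂ) ^ (2 * p.1 + 3 + p.2) := by
    rw [inv_eq_iff_eq_inv]
    exact eq_inv_of_mul_eq_one_left h3
  rw [h4]
  ring

theorem inj1 : Function.Injective fun x : ℕ × ℕ => (((x.1 : ℤ) + 1, (x.2 : ℤ) + 1) : ℤ × ℤ) := by
  rintro ⟨a, b⟩ ⟨c, d⟩ h
  simp only [Prod.mk.injEq] at h
  ext <;> simp <;> omega

theorem inj2 : Function.Injective fun x : ℕ × ℕ => ((-((x.1 : ℤ) + 1), (x.2 : ℤ) + 1) : ℤ × ℤ) := by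
  rintro ⟨a, b⟩ ⟨c, d⟩ h
  simp only [Prod.mk.injEq] at h
  ext <;> simp <;> omega

theorem inj3 : Function.Injective fun x : ℕ × ℕ => (((x.1 : ℤ) + 1, -((x.2 : ℤ) + 1)) : ℤ × ℤ) := by
  rintro ⟨a, b⟩ ⟨c, d⟩ h
  simp only [Prod.mk.injEq] at h
  ext <;> simp <;> omega

/-- splitting a sum over the half plane `m > 0` -/
theorem split1 (f : ℤ → ℤ → ℂ) (hf : Summable fun x : ℤ × ℤ => f x.1 x.2) :
    ∑' m : ℕ, ∑' n : ℤ, f n ((m : ℤ) + 1) = ∑' m : ℕ, f 0 ((m : ℤ) + 1) +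
      ∑' k : ℕ, ∑' m : ℕ, f ((k : ℤ) + 1) ((m : ℤ) + 1) +
      ∑' k : ℕ, ∑' m : ℕ, f (-((k : ℤ) + 1)) ((m : ℤ) + 1) := by
  have h1 := hf.comp_injective inj1
  have h2 := hf.comp_injective inj2
  have h3 : Summable fun m : ℕ => f 0 ((m : ℤ) + 1) := by
    refine hf.comp_injective (i := fun m : ℕ => ((0, (m : ℤ) + 1) : ℤ × ℤ)) ?_
    intro a b h
    simp only [Prod.mk.injEq, true_and] at h
    omega
  have e1 : ∑' k : ℕ, ∑' m : ℕ, f ((k : ℤ) + 1) ((m : ℤ) + 1) =
      ∑' m : ℕ, ∑' k : ℕ, f ((k : ℤ) + 1) ((m : ℤ) + 1) :=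
    (Summable.tsum_comm (f := fun k m : ℕ => f ((k : ℤ) + 1) ((m : ℤ) + 1)) h1).symm
  have e2 : ∑' k : ℕ, ∑' m : ℕ, f (-((k : ℤ) + 1)) ((m : ℤ) + 1) =
      ∑' m : ℕ, ∑' k : ℕ, f (-((k : ℤ) + 1)) ((m : ℤ) + 1) :=
    (Summable.tsum_comm (f := fun k m : ℕ => f (-((k : ℤ) + 1)) ((m : ℤ) + 1)) h2).symm
  have h1' : Summable fun m : ℕ => ∑' k : ℕ, f ((k : ℤ) + 1) ((m : ℤ) + 1) := by
    have := (h1.prod_symm).prod
    exact this
  have h2' : Summable fun m : ℕ => ∑' k : ℕ, f (-((k : ℤ) + 1)) ((m : ℤ) + 1) := by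
    have := (h2.prod_symm).prod
    exact this
  rw [e1, e2, ← h3.tsum_add h1', ← (h3.add h1').tsum_add h2']
  refine tsum_congr fun m => ?_
  have h4 : Summable fun k : ℕ => f ((k : ℤ) + 1) ((m : ℤ) + 1) := by
    refine hf.comp_injective (i := fun k : ℕ => (((k : ℤ) + 1, (m : ℤ) + 1) : ℤ × ℤ)) ?_
    intro a b h
    simp only [Prod.mk.injEq, and_true] at h
    omega
  have h5 : Summable fun k : ℕ => f (-((k : ℤ) + 1)) ((m : ℤ) + 1) := by
    refine hf.comp_injective (i := fun k : ℕ => ((-((k : ℤ) + 1), (m : ℤ) + 1) : ℤ × ℤ)) ?_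
    intro a b h
    simp only [Prod.mk.injEq, and_true] at h
    omega
  rw [tsum_of_add_one_of_neg_add_one (f := fun n : ℤ => f n ((m : ℤ) + 1)) h4 h5]
  ring

/-- splitting a sum over the half plane `n > 0` -/
theorem split2 (f : ℤ → ℤ → ℂ) (hf : Summable fun x : ℤ × ℤ => f x.1 x.2) :
    ∑' k : ℕ, ∑' m : ℤ, f ((k : ℤ) + 1) m = ∑' k : ℕ, f ((k : ℤ) + 1) 0 +
      ∑' k : ℕ, ∑' m : ℕ, f ((k : ℤ) + 1) ((m : ℤ) + 1) +
      ∑' k : ℕ, ∑' m : ℕ, f ((k : ℤ) + 1) (-((m : ℤ) + 1)) := by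
  have h1 := hf.comp_injective inj1
  have h2 := hf.comp_injective inj3
  have h3 : Summable fun k : ℕ => f ((k : ℤ) + 1) 0 := by
    refine hf.comp_injective (i := fun k : ℕ => (((k : ℤ) + 1, 0) : ℤ × ℤ)) ?_
    intro a b h
    simp only [Prod.mk.injEq, and_true] at h
    omega
  have h1' : Summable fun k : ℕ => ∑' m : ℕ, f ((k : ℤ) + 1) ((m : ℤ) + 1) := h1.prod
  have h2' : Summable fun k : ℕ => ∑' m : ℕ, f ((k : ℤ) + 1) (-((m : ℤ) + 1)) := h2.prod
  rw [← h3.tsum_add h1', ← (h3.add h1').tsum_add h2']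
  refine tsum_congr fun k => ?_
  have h4 : Summable fun m : ℕ => f ((k : ℤ) + 1) ((m : ℤ) + 1) := h1.prod_factor k
  have h5 : Summable fun m : ℕ => f ((k : ℤ) + 1) (-((m : ℤ) + 1)) := h2.prod_factor k
  rw [tsum_of_add_one_of_neg_add_one (f := fun m : ℤ => f ((k : ℤ) + 1) m) h4 h5]
  ring

theorem mulPt_ne (k : ℕ) (ν : UpperHalfPlane) (m : ℤ) : ((k : ℂ) + 1) * (ν : ℂ) + m ≠ 0 := by
  intro h
  have h1 := congrArg Complex.im h
  have h2 : (((k : ℂ) + 1) * (ν : ℂ) + m).im = ((k : ℝ) + 1) * (ν : ℂ).im := by simp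
  rw [h2, Complex.zero_im] at h1
  have h3 : 0 < ((k : ℝ) + 1) * (ν : ℂ).im := mul_pos (by positivity) ν.im_pos
  exact absurd h1 (ne_of_gt h3)

theorem injk : Function.Injective fun x : ℕ × ℤ => (((x.1 : ℤ) + 1, x.2) : ℤ × ℤ) := by
  rintro ⟨a, b⟩ ⟨c, d⟩ h
  simp only [Prod.mk.injEq] at h
  ext
  · simp; omega
  · simp; omega

theorem summable_L (ν : UpperHalfPlane) (a l : ℕ) :
    Summable fun x : ℕ × ℤ => ((x.1 : ℂ) + 1) ^ l *
      (1 / ((((x.1 : ℂ) + 1) * ν) + x.2) ^ (2 * a + 3 + l)) := by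
  have h := (summable_TT ν l 0 (2 * a + 3 + l) (by omega)).comp_injective injk
  refine h.congr fun x => ?_
  simp only [Function.comp]
  push_cast
  ring

theorem row (p : V) (ν : UpperHalfPlane) :
    ∑' k : ℕ, ∑' m : ℤ, U p ν ((k : ℤ) + 1) m =
      ∑ i ∈ Finset.range (p.2 + 1), (p.2.choose i : ℂ) * (-(ν : ℂ)) ^ (p.2 - i) *
        phi (p.1, p.2 - i) ν := by
  have h1 : ∀ k : ℕ, ∑' m : ℤ, U p ν ((k : ℤ) + 1) m =
      ∑ i ∈ Finset.range (p.2 + 1), (p.2.choose i : ℂ) * (-(ν : ℂ)) ^ (p.2 - i) *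
        (((k : ℂ) + 1) ^ (p.2 - i) * Lf (2 * p.1 + 3 + (p.2 - i)) (((k : ℂ) + 1) * ν)) := by
    intro k
    have h2 : ∀ m : ℤ, U p ν ((k : ℤ) + 1) m =
        ∑ i ∈ Finset.range (p.2 + 1), (p.2.choose i : ℂ) * (-(ν : ℂ)) ^ (p.2 - i) *
        (((k : ℂ) + 1) ^ (p.2 - i) *
          (1 / (((k : ℂ) + 1) * ν + m) ^ (2 * p.1 + 3 + (p.2 - i)))) := by
      intro m
      have hz := mulPt_ne k ν m
      rw [U]
      push_cast
      set z := ((k : ℂ) + 1) * (ν : ℂ) with hzdef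
      have h3 : (m : ℂ) ^ p.2 = ∑ i ∈ Finset.range (p.2 + 1), (z + m) ^ i * (-z) ^ (p.2 - i) *
          (p.2.choose i : ℂ) := by
        rw [← add_pow]; congr 1; ring
      rw [h3, Finset.sum_div]
      refine Finset.sum_congr rfl fun i hi => ?_
      have hi' : i ≤ p.2 := Nat.lt_succ_iff.1 (Finset.mem_range.1 hi)
      have h4 : (z + m) ^ (2 * p.1 + 3 + p.2) = (z + m) ^ i * (z + m) ^ (2 * p.1 + 3 + (p.2 - i)) := by
        rw [← pow_add]; congr 1; omega
      have h5 : (-z) ^ (p.2 - i) = (-(ν : ℂ)) ^ (p.2 - i) * ((k : ℂ) + 1) ^ (p.2 - i) := by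
        rw [← mul_pow]; congr 1; rw [hzdef]; ring
      rw [h4, h5]
      have h6 : (z + m) ^ i ≠ 0 := pow_ne_zero _ hz
      have h7 : (z + m) ^ (2 * p.1 + 3 + (p.2 - i)) ≠ 0 := pow_ne_zero _ hz
      field_simp
    simp only [h2]
    rw [Summable.tsum_finsetSum]
    · refine Finset.sum_congr rfl fun i _ => ?_
      rw [tsum_mul_left, tsum_mul_left]
      rfl
    · intro i _
      refine Summable.mul_left _ ?_
      exact (summable_L ν p.1 (p.2 - i)).prod_factor k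
  simp only [h1]
  rw [Summable.tsum_finsetSum]
  · refine Finset.sum_congr rfl fun i _ => ?_
    rw [tsum_mul_left, phi_eq]
  · intro i _
    refine Summable.mul_left _ ?_
    have h2 := (summable_L ν p.1 (p.2 - i)).prod
    refine h2.congr fun k => ?_
    exact tsum_mul_left (f := fun c : ℤ => (1 / ((((k : ℂ) + 1) * ν) + c) ^ (2 * p.1 + 3 + (p.2 - i))))
      (a := ((k : ℂ) + 1) ^ (p.2 - i))

/-- shifted functions -/
noncomputable def gg (p : V) (ν : UpperHalfPlane) : ℂ := phi p ν - if p.2 = 0 then ze p.1 else 0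

/-- the error term -/
noncomputable def ee (p : V) (ν : UpperHalfPlane) : ℂ :=
  -2 * (-1) ^ p.2 * ((ν : ℂ) ^ p.2)⁻¹ * Sf p ν -
    if p.2 = 0 then 2 * ze p.1 * ((ν : ℂ) ^ (2 * p.1 + 3))⁻¹ else 0

theorem zero_row (p : V) (ν : UpperHalfPlane) :
    ∑' k : ℕ, U p ν ((k : ℤ) + 1) 0 =
      if p.2 = 0 then ze p.1 * ((ν : ℂ) ^ (2 * p.1 + 3))⁻¹ else 0 := by
  split_ifs with h
  · rw [ze, ← tsum_mul_right]
    refine tsum_congr fun k => ?_
    rw [U, h]
    push_cast
    rw [pow_zero, add_zero, add_zero, mul_pow, one_div, mul_inv, one_div]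
  · have h1 : ∀ k : ℕ, U p ν ((k : ℤ) + 1) 0 = 0 := by
      intro k
      rw [U, Int.cast_zero, zero_pow h, zero_div]
    simp only [h1, tsum_zero]

theorem zero_col (p : V) (ν : UpperHalfPlane) :
    ∑' m : ℕ, U p ν 0 ((m : ℤ) + 1) = ze p.1 := by
  rw [ze]
  refine tsum_congr fun m => ?_
  rw [U]
  push_cast
  rw [zero_mul, zero_add, pow_add _ (2 * p.1 + 3) p.2]
  have h1 : ((m : ℂ) + 1) ≠ 0 := Nat.cast_add_one_ne_zero m
  have h2 : ((m : ℂ) + 1) ^ p.2 ≠ 0 := pow_ne_zero _ h1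
  have h3 : ((m : ℂ) + 1) ^ (2 * p.1 + 3) ≠ 0 := pow_ne_zero _ h1
  field_simp

/-- the transformation law -/
theorem gg_inv (p : V) (ν : UpperHalfPlane) :
    gg p (inv' ν) = (ν : ℂ) ^ (wt p) * (D (-1 / (ν : ℂ)) (fun q => gg q ν) p + ee p ν) := by
  have hν := ν.ne_zero
  have hU := summable_U p ν
  have h1 := phi_inv p ν
  rw [split1 (U p ν) hU] at h1
  have h2 := split2 (U p ν) hU
  rw [row, zero_row] at h2
  have h3 : ∑' k : ℕ, ∑' m : ℕ, U p ν ((k : ℤ) + 1) (-((m : ℤ) + 1)) =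
      -∑' k : ℕ, ∑' m : ℕ, U p ν (-((k : ℤ) + 1)) ((m : ℤ) + 1) := by
    simp only [U_neg]
    rw [← tsum_neg]
    refine tsum_congr fun k => ?_
    rw [tsum_neg]
  rw [h3] at h2
  rw [zero_col] at h1
  set Q := ∑' k : ℕ, ∑' m : ℕ, U p ν (-((k : ℤ) + 1)) ((m : ℤ) + 1) with hQ
  have hS : ∑' k : ℕ, ∑' m : ℕ, U p ν ((k : ℤ) + 1) ((m : ℤ) + 1) = Sf p ν := rfl
  rw [hS] at h1 h2
  set R := ∑ i ∈ Finset.range (p.2 + 1), (p.2.choose i : ℂ) * (-(ν : ℂ)) ^ (p.2 - i) *
        phi (p.1, p.2 - i) ν with hR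
  set B := (if p.2 = 0 then ze p.1 * ((ν : ℂ) ^ (2 * p.1 + 3))⁻¹ else 0) with hB
  have h4 : Q = B + Sf p ν - R := by rw [h2]; ring
  rw [h4] at h1
  have h5 : (-1 : ℂ) ^ (2 * p.1 + 3 + p.2) = -(-1) ^ p.2 := by
    rw [pow_add, pow_add, pow_mul]
    norm_num
  rw [h5] at h1
  have h6 : D (-1 / (ν : ℂ)) (fun q => gg q ν) p = (-1) ^ p.2 * ((ν : ℂ) ^ p.2)⁻¹ * (R - ze p.1) := by
    rw [D]
    have h7 : ∀ i ∈ Finset.range (p.2 + 1), (p.2.choose i : ℂ) * (-1 / (ν : ℂ)) ^ i *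
        gg (p.1, p.2 - i) ν = (-1) ^ p.2 * ((ν : ℂ) ^ p.2)⁻¹ *
          ((p.2.choose i : ℂ) * (-(ν : ℂ)) ^ (p.2 - i) * phi (p.1, p.2 - i) ν) -
          (if i = p.2 then (-1) ^ p.2 * ((ν : ℂ) ^ p.2)⁻¹ * ze p.1 else 0) := by
      intro i hi
      have hi' : i ≤ p.2 := Nat.lt_succ_iff.1 (Finset.mem_range.1 hi)
      have h8 : (-1 / (ν : ℂ)) ^ i = (-1) ^ p.2 * ((ν : ℂ) ^ p.2)⁻¹ * (-(ν : ℂ)) ^ (p.2 - i) := by
        have h9 : (ν : ℂ) ^ p.2 = (ν : ℂ) ^ i * (ν : ℂ) ^ (p.2 - i) := by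
          rw [← pow_add]; congr 1; omega
        have h10 : (-1 : ℂ) ^ p.2 = (-1) ^ i * (-1) ^ (p.2 - i) := by
          rw [← pow_add]; congr 1; omega
        have h11 : (-1 : ℂ) ^ (p.2 - i) * (-1) ^ (p.2 - i) = 1 := by
          rw [← mul_pow]; norm_num
        rw [h9, h10, div_pow, neg_pow (ν : ℂ)]
        have h12 : (ν : ℂ) ^ i ≠ 0 := pow_ne_zero _ hν
        have h13 : (ν : ℂ) ^ (p.2 - i) ≠ 0 := pow_ne_zero _ hν
        field_simp
        linear_combination (-1 : ℂ) * h11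
      rw [gg, h8]
      by_cases hi2 : i = p.2
      · subst hi2
        simp
        ring
      · have hi3 : p.2 - i ≠ 0 := by omega
        simp only [hi2, hi3, if_false]
        ring
    rw [Finset.sum_congr rfl h7, Finset.sum_sub_distrib, ← Finset.mul_sum, ← hR,
      Finset.sum_ite_eq' (Finset.range (p.2 + 1)) p.2, if_pos (Finset.self_mem_range_succ _)]
    ring
  rw [h6, gg, h1, ee]
  have h14 : (ν : ℂ) ^ wt p = (ν : ℂ) ^ (2 * p.1 + 3 + p.2) * (ν : ℂ) ^ p.2 := by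
    rw [← pow_add]; congr 1; simp only [wt]; ring
  rw [h14]
  have h15 : (ν : ℂ) ^ p.2 ≠ 0 := pow_ne_zero _ hν
  by_cases hp : p.2 = 0
  · simp only [hp, if_true, hB, pow_zero, inv_one, mul_one, one_mul, add_zero]
    have h16 : (ν : ℂ) ^ (2 * p.1 + 3) ≠ 0 := pow_ne_zero _ hν
    field_simp
    ring
  · simp only [hp, if_false, hB]
    field_simp
    ring

/-- the point `w + N` -/
noncomputable def addPt (w : UpperHalfPlane) (N : ℕ) : UpperHalfPlane :=
  ⟨(w : ℂ) + N, by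
    have h1 : ((w : ℂ) + N).im = (w : ℂ).im := by simp
    rw [h1]
    exact w.im_pos⟩

theorem coe_addPt (w : UpperHalfPlane) (N : ℕ) : ((addPt w N : UpperHalfPlane) : ℂ) = (w : ℂ) + N :=
  rfl

/-- asymptotics of the quadrant sum -/
def SpecAsy : Prop := ∀ p : V, ∃ B : ℂ, B ≠ 0 ∧ ∀ w : UpperHalfPlane,
  Tendsto (fun N : ℕ => ((w : ℂ) + N) ^ (2 * p.1 + 2) * Sf p (addPt w N)) atTop (𝓝 B)

end WBM

end Pool.Agent.Lib.MPd9449f
end

section
/-!
# Growth bounds the modular weight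
-/
open MvPolynomial Filter Topology Complex

namespace Pool.Agent.Lib.MPd9449f

namespace WBM

theorem gg_addPt (p : V) (w : UpperHalfPlane) (N : ℕ) : gg p (addPt w N) = gg p w := by
  have h1 : cexp (2 * (Real.pi : ℂ) * I * ((w : ℂ) + N)) = cexp (2 * (Real.pi : ℂ) * I * w) := by
    rw [mul_add, Complex.exp_add]
    have h2 : cexp (2 * (Real.pi : ℂ) * I * N) = 1 := by
      rw [mul_comm]; exact Complex.exp_nat_mul_two_pi_mul_I N
    rw [h2, mul_one]
  rw [gg, gg, phi, phi, coe_addPt, h1]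

theorem tendsto_inv_pow (w : UpperHalfPlane) {r : ℕ} (hr : r ≠ 0) :
    Tendsto (fun N : ℕ => (((w : ℂ) + N) ^ r)⁻¹) atTop (𝓝 0) := by
  have h2 : Tendsto (fun N : ℕ => ((w : ℂ) + N)⁻¹) atTop (𝓝 0) := by
    have := (tendsto_neg_inv w).neg
    rw [neg_zero] at this
    refine this.congr fun N => ?_
    rw [neg_div, neg_neg, one_div]
  have h3 := h2.pow r
  rw [zero_pow hr] at h3
  exact h3.congr fun N => by rw [inv_pow]

theorem law (h : SpecAsy) : ∃ b : V → ℂ,
    Law gg (fun w N => inv' (addPt w N)) (fun p w N => ee p (addPt w N)) b := by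
  choose B hB hlim using h
  refine ⟨fun p => -2 * (-1) ^ p.2 * B p, ?_, ?_, ?_⟩
  · intro p
    exact mul_ne_zero (mul_ne_zero (by norm_num) (pow_ne_zero _ (by norm_num))) (hB p)
  · intro w N p
    have h1 := gg_inv p (addPt w N)
    rw [coe_addPt] at h1
    simp only [gg_addPt] at h1
    exact h1
  · intro p w
    have h1 : ∀ N : ℕ, ((w : ℂ) + N) ^ (ord p) * ee p (addPt w N) =
        -2 * (-1) ^ p.2 * (((w : ℂ) + N) ^ (2 * p.1 + 2) * Sf p (addPt w N)) -
          (if p.2 = 0 then 2 * ze p.1 else 0) * (((w : ℂ) + N) ^ 1)⁻¹ := by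
      intro N
      have h2 := add_ne_zero' w N
      have h3 : ((w : ℂ) + N) ^ (ord p) = ((w : ℂ) + N) ^ (2 * p.1 + 2) * ((w : ℂ) + N) ^ p.2 := by
        rw [← pow_add]; rfl
      rw [ee, coe_addPt, h3]
      have h4 : ((w : ℂ) + N) ^ p.2 ≠ 0 := pow_ne_zero _ h2
      by_cases hp : p.2 = 0
      · simp only [hp, if_true, pow_zero, inv_one, mul_one, pow_one]
        have h5 : ((w : ℂ) + N) ^ (2 * p.1 + 3) = ((w : ℂ) + N) ^ (2 * p.1 + 2) * ((w : ℂ) + N) := by
          rw [← pow_succ]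
        rw [h5]
        have h6 : ((w : ℂ) + N) ^ (2 * p.1 + 2) ≠ 0 := pow_ne_zero _ h2
        field_simp
      · simp only [hp, if_false, zero_mul, sub_zero]
        field_simp
    simp only [h1]
    have h2 := ((hlim p w).const_mul (-2 * (-1) ^ p.2)).sub
      ((tendsto_inv_pow w one_ne_zero).const_mul (if p.2 = 0 then 2 * ze p.1 else 0))
    simpa using h2

theorem im_inv' (ν : UpperHalfPlane) :
    ((inv' ν : UpperHalfPlane) : ℂ).im = (ν : ℂ).im / ‖(ν : ℂ)‖ ^ 2 := by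
  rw [coe_inv', Complex.div_im, ← Complex.normSq_eq_norm_sq]
  simp [neg_div]

/-- the decisive point: the top weight part vanishes on the shifted functions -/
theorem top_zero (h : SpecAsy) (P : MvPolynomial V ℂ) (k A : ℝ) (hk : 0 ≤ k)
    (hA : ∀ q : ℂ, ‖q‖ < 1 → ‖aeval (fun p => Gfun p q) P‖ ≤ A * (1 - ‖q‖) ^ (-k)) (n : ℕ)
    (hn : 2 * k < n) (hP : ∀ m, coeff m P ≠ 0 → W m ≤ n) (w : UpperHalfPlane) :
    eval (fun p => (cc p)⁻¹ * gg p w) (weightedHomogeneousComponent wt n P) = 0 := by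
  obtain ⟨b, hb⟩ := law h
  have hA0 : 0 ≤ A := by
    have := hA 0 (by simp)
    simp only [norm_zero, sub_zero, Real.one_rpow, mul_one] at this
    exact (norm_nonneg _).trans this
  set x : ℕ → V → ℂ := fun N p =>
    Gfun p (cexp (2 * (Real.pi : ℂ) * I * ((inv' (addPt w N) : UpperHalfPlane) : ℂ))) with hx
  set κ : V → ℂ := fun p => if p.2 = 0 then ze p.1 else 0 with hκ
  set y : ℕ → V → ℂ := fun N p => (cc p)⁻¹ * (D (-1 / ((w : ℂ) + N)) (fun q => gg q w) p +
    ee p (addPt w N) + κ p * (((w : ℂ) + N) ^ (wt p))⁻¹) with hy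
  have hxy : ∀ N p, x N p = ((w : ℂ) + N) ^ (wt p) * y N p := by
    intro N p
    have h1 := hb.tr w N p
    rw [gg, phi] at h1
    have h2 := cc_ne p
    have h3 : ((w : ℂ) + N) ^ (wt p) ≠ 0 := pow_ne_zero _ (add_ne_zero' w N)
    have h4 : cc p * x N p = ((w : ℂ) + N) ^ (wt p) *
        (D (-1 / ((w : ℂ) + N)) (fun q => gg q w) p + ee p (addPt w N)) + κ p := by
      rw [← h1]
      simp only [hx, hκ]
      ring
    have h5 : x N p = (cc p)⁻¹ * (cc p * x N p) := by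
      rw [← mul_assoc, inv_mul_cancel₀ h2, one_mul]
    rw [h5, h4, hy]
    field_simp
  have hlim : ∀ p, Tendsto (fun N => y N p) atTop (𝓝 ((cc p)⁻¹ * gg p w)) := by
    intro p
    have h1 := ((tendsto_D (fun q => gg q w) w p).add (hb.lim0 p w)).add
      ((tendsto_inv_pow w (r := wt p) (by simp only [wt]; omega)).const_mul (κ p))
    have h2 := h1.const_mul (cc p)⁻¹
    simpa using h2
  have h1 := tendsto_top P n hP (fun N => (w : ℂ) + N) (tendsto_norm_add w) (add_ne_zero' w)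
    x y (fun p => (cc p)⁻¹ * gg p w) hxy hlim
  have h2 : Tendsto (fun N : ℕ => (((w : ℂ) + N) ^ n)⁻¹ * eval (x N) P) atTop (𝓝 0) := by
    have hw : 0 < (w : ℂ).im := w.im_pos
    set t : ℝ := 2 * Real.pi * (w : ℂ).im with ht
    have ht0 : 0 < t := by rw [ht]; positivity
    set c : ℝ := t / (1 + t) with hc
    have hc0 : 0 < c := by rw [hc]; positivity
    have h3 : Tendsto (fun N : ℕ => A * c ^ (-k) * ‖(w : ℂ) + N‖ ^ (-((n : ℝ) - 2 * k))) atTop (𝓝 0) := by
      have h4 := (tendsto_rpow_neg_atTop (y := (n : ℝ) - 2 * k) (by linarith)).comp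
        (tendsto_norm_add w)
      have h5 := h4.const_mul (A * c ^ (-k))
      rw [mul_zero] at h5
      exact h5
    refine squeeze_zero_norm' ?_ h3
    filter_upwards [(tendsto_norm_add w).eventually_ge_atTop 1] with N hN
    set L := ‖(w : ℂ) + N‖ with hL
    have hL0 : 0 < L := by linarith
    set q := cexp (2 * (Real.pi : ℂ) * I * ((inv' (addPt w N) : UpperHalfPlane) : ℂ)) with hq
    have hq1 : ‖q‖ < 1 := UpperHalfPlane.norm_exp_two_pi_I_lt_one _
    have hq2 : ‖q‖ = Real.exp (-(t / L ^ 2)) := by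
      rw [hq, Complex.norm_exp]
      congr 1
      have h6 : (2 * (Real.pi : ℂ) * I * ((inv' (addPt w N) : UpperHalfPlane) : ℂ)).re =
          -(2 * Real.pi * ((inv' (addPt w N) : UpperHalfPlane) : ℂ).im) := by
        simp
      rw [h6, im_inv', coe_addPt, ← hL]
      have h7 : ((w : ℂ) + N).im = (w : ℂ).im := by simp
      rw [h7, ht]
      ring
    have h8 : c / L ^ 2 ≤ 1 - ‖q‖ := by
      rw [hq2]
      set s := t / L ^ 2 with hs
      have hs0 : 0 < s := by rw [hs]; positivity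
      have h9 : s + 1 ≤ Real.exp s := Real.add_one_le_exp s
      have h10 : Real.exp (-s) ≤ 1 / (1 + s) := by
        rw [Real.exp_neg, ← one_div]
        exact one_div_le_one_div_of_le (by linarith) (by linarith)
      have h11 : c / L ^ 2 ≤ s / (1 + s) := by
        rw [hc, hs, div_div, div_le_div_iff₀ (by positivity) (by positivity)]
        have h12 : 1 ≤ L ^ 2 := one_le_pow₀ hN
        have h13 : t / L ^ 2 * ((1 + t) * L ^ 2) = t * (1 + t) := by
          field_simp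
        rw [h13]
        have h14 : t / L ^ 2 ≤ t := div_le_self ht0.le h12
        nlinarith
      have h15 : s / (1 + s) = 1 - 1 / (1 + s) := by
        field_simp
        ring
      linarith
    have h16 := hA q hq1
    have h17 : (1 - ‖q‖) ^ (-k) ≤ (c / L ^ 2) ^ (-k) :=
      Real.rpow_le_rpow_of_nonpos (by positivity) h8 (by linarith)
    have h18 : eval (x N) P = aeval (fun p => Gfun p q) P := by
      rw [MvPolynomial.aeval_eq_eval]
    rw [norm_mul, norm_inv, norm_pow, ← hL, h18]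
    have h19 : (c / L ^ 2) ^ (-k) = c ^ (-k) * L ^ (2 * k) := by
      rw [Real.div_rpow hc0.le (by positivity), Real.rpow_neg (x := L ^ 2) (by positivity),
        ← Real.rpow_natCast L 2, ← Real.rpow_mul hL0.le]
      push_cast
      rw [div_inv_eq_mul]
    have h20 : L ^ (-((n : ℝ) - 2 * k)) = (L ^ n)⁻¹ * L ^ (2 * k) := by
      rw [neg_sub, sub_eq_neg_add, Real.rpow_add hL0, Real.rpow_neg hL0.le, Real.rpow_natCast]
    calc (L ^ n)⁻¹ * ‖aeval (fun p => Gfun p q) P‖ ≤ (L ^ n)⁻¹ * (A * (1 - ‖q‖) ^ (-k)) := by gcongr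
      _ ≤ (L ^ n)⁻¹ * (A * (c / L ^ 2) ^ (-k)) := by gcongr
      _ = A * c ^ (-k) * L ^ (-((n : ℝ) - 2 * k)) := by rw [h19, h20]; ring
  exact tendsto_nhds_unique h1 h2

theorem wb (h : SpecAsy) : SpecWB := by
  classical
  intro P k A hk hA m hm
  rw [← W_eq]
  have hne : P.support.Nonempty := ⟨m, hm⟩
  obtain ⟨m0, hm0, hmax⟩ := Finset.exists_max_image P.support W hne
  have h1 : W m ≤ W m0 := hmax m hm
  by_contra hlt
  rw [not_le] at hlt
  have h2 : 2 * k < (W m0 : ℕ) := lt_of_lt_of_le hlt (by exact_mod_cast h1)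
  have h3 := top_zero h P k A hk hA (W m0) h2 (fun m' hm' => hmax m' (mem_support_iff.2 hm'))
  set T := weightedHomogeneousComponent wt (W m0) P with hT
  obtain ⟨b, hb⟩ := law h
  have h4 : bind₁ (fun p : V => C (cc p)⁻¹ * X p) T = 0 := by
    refine hb.indep _ fun w => ?_
    rw [← h3 w, ← MvPolynomial.coe_aeval_eq_eval, ← MvPolynomial.coe_aeval_eq_eval]
    simp only [RingHom.coe_coe]
    rw [aeval_bind₁]
    congr 2
    funext p
    simp
  have h5 : T = 0 := by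
    have h6 : bind₁ (fun p : V => C (cc p) * X p) (bind₁ (fun p : V => C (cc p)⁻¹ * X p) T) = T := by
      rw [bind₁_bind₁]
      have h7 : (fun p : V => (bind₁ fun p : V => C (cc p) * X p) (C (cc p)⁻¹ * X p)) =
          (X : V → MvPolynomial V ℂ) := by
        funext p
        rw [map_mul, bind₁_C_right, bind₁_X_right, ← mul_assoc, ← C_mul,
          inv_mul_cancel₀ (cc_ne p), C_1, one_mul]
      rw [h7, bind₁_X_left]
      rfl
    rw [← h6, h4, map_zero]
  have h8 : coeff m0 T = coeff m0 P := by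
    rw [hT, coeff_weightedHomogeneousComponent, if_pos rfl]
  rw [h5, coeff_zero] at h8
  exact (mem_support_iff.1 hm0) h8.symm

end WBM

end Pool.Agent.Lib.MPd9449f
end

section
/-!
# Asymptotics of the quadrant sum
-/
open Filter Topology Complex

namespace Pool.Agent.Lib.MPd9449f

namespace WBAsyM

open WBM

/-- the row sums -/
noncomputable def Tz (l c : ℕ) (z : ℂ) : ℂ :=
  ∑' m : ℕ, ((m : ℂ) + 1) ^ l / (z + ((m : ℂ) + 1)) ^ (c + 1 + l)

theorem le_norm_add {z : ℂ} (hz : 1 ≤ z.re) (m : ℕ) : (m : ℝ) + 1 ≤ ‖z + (m : ℂ)‖ := by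
  have h1 : (z + (m : ℂ)).re = z.re + m := by simp
  have h2 := Complex.re_le_norm (z + (m : ℂ))
  rw [h1] at h2
  linarith

theorem norm_le_norm_add {z : ℂ} (hz : 1 ≤ z.re) (m : ℕ) : ‖z‖ ≤ ‖z + (m : ℂ)‖ := by
  rw [← sq_le_sq₀ (norm_nonneg _) (norm_nonneg _), Complex.sq_norm, Complex.sq_norm,
    Complex.normSq_apply, Complex.normSq_apply]
  have h1 : (z + (m : ℂ)).re = z.re + m := by simp
  have h2 : (z + (m : ℂ)).im = z.im := by simp
  rw [h1, h2]
  have : (0 : ℝ) ≤ m := by positivity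
  nlinarith

theorem summable_sq : Summable fun m : ℕ => 1 / ((m : ℝ) + 1) ^ 2 := by
  have h := (summable_nat_add_iff 1).2 (Real.summable_one_div_nat_pow.2 (one_lt_two))
  refine h.congr fun m => ?_
  push_cast
  rfl

theorem term_le {l c : ℕ} (hc : 1 ≤ c) {z : ℂ} (hz : 1 ≤ z.re) (m : ℕ) :
    ‖((m : ℂ) + 1) ^ l / (z + ((m : ℂ) + 1)) ^ (c + 1 + l)‖ ≤ 1 / ((m : ℝ) + 1) ^ 2 := by
  have h1 := le_norm_add hz (m + 1)
  push_cast at h1
  have h2 : ‖(m : ℂ) + 1‖ = (m : ℝ) + 1 := by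
    have := Complex.norm_natCast (m + 1)
    push_cast at this
    exact this
  have h0 : (0 : ℝ) ≤ m := by positivity
  rw [norm_div, norm_pow, norm_pow, h2]
  have h3 : ((m : ℝ) + 1) ^ (c + 1 + l) ≤ ‖z + ((m : ℂ) + 1)‖ ^ (c + 1 + l) :=
    pow_le_pow_left₀ (by positivity) (by linarith) _
  have h4 : ((m : ℝ) + 1) ^ 2 ≤ ((m : ℝ) + 1) ^ (c + 1) :=
    pow_le_pow_right₀ (by linarith) (by omega)
  calc ((m : ℝ) + 1) ^ l / ‖z + ((m : ℂ) + 1)‖ ^ (c + 1 + l)
      ≤ ((m : ℝ) + 1) ^ l / ((m : ℝ) + 1) ^ (c + 1 + l) := by gcongr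
    _ = 1 / ((m : ℝ) + 1) ^ (c + 1) := by
      rw [pow_add _ (c + 1) l]
      field_simp
    _ ≤ 1 / ((m : ℝ) + 1) ^ 2 := by gcongr

theorem summable_T {l c : ℕ} (hc : 1 ≤ c) {z : ℂ} (hz : 1 ≤ z.re) :
    Summable fun m : ℕ => ((m : ℂ) + 1) ^ l / (z + ((m : ℂ) + 1)) ^ (c + 1 + l) :=
  Summable.of_norm_bounded summable_sq fun m => term_le hc hz m

theorem ne_zero_add {z : ℂ} (hz : 1 ≤ z.re) (m : ℕ) : z + (m : ℂ) ≠ 0 := by
  have h := le_norm_add hz m
  intro h2
  rw [h2, norm_zero] at h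
  have : (0 : ℝ) ≤ m := by positivity
  linarith

theorem Tz_succ {l c : ℕ} (hc : 1 ≤ c) {z : ℂ} (hz : 1 ≤ z.re) :
    Tz (l + 1) c z = Tz l c z - z * Tz l (c + 1) z := by
  rw [Tz, Tz, Tz, ← tsum_mul_left, ← (summable_T hc hz).tsum_sub
    ((summable_T (by omega) hz).mul_left z)]
  refine tsum_congr fun m => ?_
  have h := ne_zero_add hz (m + 1)
  push_cast at h
  have e1 : c + 1 + (l + 1) = (c + 1 + l) + 1 := by ring
  have e2 : c + 1 + 1 + l = (c + 1 + l) + 1 := by ring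
  rw [e1, e2, pow_succ (z + ((m : ℂ) + 1)) (c + 1 + l)]
  have h2 : (z + ((m : ℂ) + 1)) ^ (c + 1 + l) ≠ 0 := pow_ne_zero _ h
  field_simp
  ring

/-- the error term -/
noncomputable def Dy (c : ℕ) (y : ℂ) : ℂ :=
  1 / (c * y ^ c) - 1 / (c * (y + 1) ^ c) - 1 / (y + 1) ^ (c + 1)

theorem E_le (a b : ℂ) (hab : a - b = a * b) (hb : ‖b‖ ≤ ‖a‖) (c : ℕ) :
    ‖a ^ c - b ^ c - c * b ^ (c + 1)‖ ≤ (c * (c + 1) / 2 : ℝ) * ‖a‖ ^ (c + 2) := by
  induction c with
  | zero => simp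
  | succ c ih =>
    have h1 : a ^ (c + 1) - b ^ (c + 1) - ((c + 1 : ℕ) : ℂ) * b ^ (c + 1 + 1) =
        a * (a ^ c - b ^ c - c * b ^ (c + 1)) + (c + 1) * (a * b ^ (c + 2)) := by
      push_cast
      linear_combination (b ^ c + (c + 1) * b ^ (c + 1)) * hab
    rw [h1]
    have h2 : ‖b‖ ^ (c + 2) ≤ ‖a‖ ^ (c + 2) := pow_le_pow_left₀ (norm_nonneg _) hb _
    have h3 : ‖((c : ℂ) + 1)‖ = (c : ℝ) + 1 := by
      have := Complex.norm_natCast (c + 1)
      push_cast at this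
      exact this
    calc ‖a * (a ^ c - b ^ c - c * b ^ (c + 1)) + (c + 1) * (a * b ^ (c + 2))‖
        ≤ ‖a‖ * ((c * (c + 1) / 2 : ℝ) * ‖a‖ ^ (c + 2)) +
          ((c : ℝ) + 1) * (‖a‖ * ‖a‖ ^ (c + 2)) := by
          refine (norm_add_le _ _).trans ?_
          rw [norm_mul, norm_mul, norm_mul, norm_pow, h3]
          gcongr
      _ = (((c + 1 : ℕ) : ℝ) * (((c + 1 : ℕ) : ℝ) + 1) / 2 : ℝ) * ‖a‖ ^ (c + 1 + 2) := by
          push_cast
          ring

theorem Dy_le {c : ℕ} (hc : 1 ≤ c) {y : ℂ} (hy : 1 ≤ y.re) :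
    ‖Dy c y‖ ≤ ((c : ℝ) + 1) / ‖y‖ ^ (c + 2) := by
  have h0 : y ≠ 0 := by simpa using ne_zero_add hy 0
  have h1 : y + 1 ≠ 0 := by simpa using ne_zero_add hy 1
  have hn : ‖y‖ ≤ ‖y + 1‖ := by simpa using norm_le_norm_add hy 1
  have hy0 : 0 < ‖y‖ := norm_pos_iff.2 h0
  have hc0 : (c : ℂ) ≠ 0 := by
    rw [Nat.cast_ne_zero]; omega
  have h2 := E_le (1 / y) (1 / (y + 1)) (by field_simp; ring) (by
    rw [norm_div, norm_div, norm_one]
    exact one_div_le_one_div_of_le hy0 hn) c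
  have h3 : Dy c y = (1 / (c : ℂ)) * ((1 / y) ^ c - (1 / (y + 1)) ^ c -
      c * (1 / (y + 1)) ^ (c + 1)) := by
    rw [Dy]
    simp only [div_pow, one_pow]
    have e1 : y ^ c ≠ 0 := pow_ne_zero _ h0
    have e2 : (y + 1) ^ c ≠ 0 := pow_ne_zero _ h1
    rw [pow_succ (y + 1) c]
    field_simp
  have hc1 : (1 : ℝ) ≤ c := by exact_mod_cast hc
  rw [h3, norm_mul, norm_div, norm_one, Complex.norm_natCast]
  rw [norm_div, norm_one] at h2
  calc 1 / (c : ℝ) * ‖(1 / y) ^ c - (1 / (y + 1)) ^ c - c * (1 / (y + 1)) ^ (c + 1)‖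
      ≤ 1 / (c : ℝ) * ((c * (c + 1) / 2 : ℝ) * (1 / ‖y‖) ^ (c + 2)) := by gcongr
    _ = ((c : ℝ) + 1) / 2 / ‖y‖ ^ (c + 2) := by
      rw [div_pow, one_pow]
      field_simp
    _ ≤ ((c : ℝ) + 1) / ‖y‖ ^ (c + 2) := by
      gcongr
      linarith

/-- comparison with the telescoping sum -/
theorem base_eq {c : ℕ} (hc : 1 ≤ c) {z : ℂ} (hz : 1 ≤ z.re) :
    z ^ c * Tz 0 c z = 1 / c - ∑' m : ℕ, z ^ c * Dy c (z + m) := by
  have hc0 : (c : ℂ) ≠ 0 := by
    rw [Nat.cast_ne_zero]; omega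
  have hz0 : z ≠ 0 := by simpa using ne_zero_add hz 0
  set F : ℕ → ℂ := fun m => 1 / (c * (z + m) ^ c) with hF
  have hD : ∀ m : ℕ, F m - F (m + 1) = Dy c (z + m) + ((m : ℂ) + 1) ^ 0 /
      (z + ((m : ℂ) + 1)) ^ (c + 1 + 0) := by
    intro m
    simp only [hF, Dy]
    push_cast
    rw [← add_assoc]
    simp
  have hsD : Summable fun m : ℕ => Dy c (z + m) := by
    refine Summable.of_norm_bounded (summable_sq.mul_left ((c : ℝ) + 1)) fun m => ?_
    have h1 : 1 ≤ (z + (m : ℂ)).re := by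
      have : (z + (m : ℂ)).re = z.re + m := by simp
      have h0 : (0 : ℝ) ≤ m := by positivity
      linarith
    refine (Dy_le hc h1).trans ?_
    have h3 := le_norm_add hz m
    have h0 : (0 : ℝ) ≤ m := by positivity
    rw [mul_one_div]
    have h4 : ((m : ℝ) + 1) ^ 2 ≤ ‖z + (m : ℂ)‖ ^ (c + 2) :=
      (pow_le_pow_right₀ (by linarith) (by omega)).trans
        (pow_le_pow_left₀ (by positivity) h3 (c + 2))
    gcongr
  have hsT := summable_T (l := 0) hc hz
  have hs : Summable fun m : ℕ => F m - F (m + 1) := by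
    refine (hsD.add hsT).congr fun m => ?_
    exact (hD m).symm
  have h1 : ∑' m : ℕ, (F m - F (m + 1)) = F 0 := by
    have h2 := hs.hasSum.tendsto_sum_nat
    have h3 : ∀ n : ℕ, ∑ i ∈ Finset.range n, (F i - F (i + 1)) = F 0 - F n :=
      fun n => Finset.sum_range_sub' F n
    simp only [h3] at h2
    have h4 : Tendsto F atTop (𝓝 0) := by
      have h5 : Tendsto (fun m : ℕ => 1 / ((m : ℝ) + 1)) atTop (𝓝 0) :=
        tendsto_one_div_add_atTop_nhds_zero_nat
      refine squeeze_zero_norm (fun m => ?_) h5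
      have h3 := le_norm_add hz m
      have h0 : (0 : ℝ) ≤ m := by positivity
      have hc1 : (1 : ℝ) ≤ c := by exact_mod_cast hc
      rw [hF, norm_div, norm_one, norm_mul, norm_pow, Complex.norm_natCast]
      apply one_div_le_one_div_of_le (by positivity)
      calc (m : ℝ) + 1 ≤ ((m : ℝ) + 1) ^ c := by
            calc (m : ℝ) + 1 = ((m : ℝ) + 1) ^ 1 := (pow_one _).symm
              _ ≤ _ := pow_le_pow_right₀ (by linarith) hc
        _ ≤ ‖z + (m : ℂ)‖ ^ c := pow_le_pow_left₀ (by positivity) h3 c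
        _ ≤ c * ‖z + (m : ℂ)‖ ^ c := le_mul_of_one_le_left (by positivity) hc1
    have h6 := (tendsto_const_nhds (x := F 0) (f := (atTop : Filter ℕ))).sub h4
    rw [sub_zero] at h6
    exact tendsto_nhds_unique h2 h6
  have h2 : ∑' m : ℕ, (F m - F (m + 1)) = ∑' m : ℕ, Dy c (z + m) + Tz 0 c z := by
    rw [Tz, ← hsD.tsum_add hsT]
    exact tsum_congr hD
  rw [h1] at h2
  have h3 : Tz 0 c z = F 0 - ∑' m : ℕ, Dy c (z + m) := by rw [h2]; ring
  rw [h3, tsum_mul_left, mul_sub]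
  congr 1
  simp only [hF]
  push_cast
  rw [add_zero]
  field_simp

theorem zD_le {c : ℕ} (hc : 1 ≤ c) {z : ℂ} (hz : 1 ≤ z.re) (m : ℕ) :
    ‖z ^ c * Dy c (z + m)‖ ≤ ((c : ℝ) + 1) / ‖z + (m : ℂ)‖ ^ 2 := by
  have h1 : 1 ≤ (z + (m : ℂ)).re := by
    have : (z + (m : ℂ)).re = z.re + m := by simp
    have h0 : (0 : ℝ) ≤ m := by positivity
    linarith
  have h2 := Dy_le hc h1
  have h3 := norm_le_norm_add hz m
  have h4 : 0 < ‖z + (m : ℂ)‖ := norm_pos_iff.2 (ne_zero_add hz m)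
  rw [norm_mul, norm_pow]
  calc ‖z‖ ^ c * ‖Dy c (z + m)‖ ≤ ‖z + (m : ℂ)‖ ^ c * (((c : ℝ) + 1) / ‖z + (m : ℂ)‖ ^ (c + 2)) := by
        gcongr
    _ = ((c : ℝ) + 1) / ‖z + (m : ℂ)‖ ^ 2 := by
      rw [pow_add]
      field_simp

theorem zD_le' {c : ℕ} (hc : 1 ≤ c) {z : ℂ} (hz : 1 ≤ z.re) (m : ℕ) :
    ‖z ^ c * Dy c (z + m)‖ ≤ ((c : ℝ) + 1) * (1 / ((m : ℝ) + 1) ^ 2) := by
  refine (zD_le hc hz m).trans ?_
  have h1 := le_norm_add hz m
  have h0 : (0 : ℝ) ≤ m := by positivity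
  rw [mul_one_div]
  gcongr

theorem base_bound {c : ℕ} (hc : 1 ≤ c) : ∃ C : ℝ, ∀ z : ℂ, 1 ≤ z.re → ‖z ^ c * Tz 0 c z‖ ≤ C := by
  refine ⟨1 + ∑' m : ℕ, ((c : ℝ) + 1) * (1 / ((m : ℝ) + 1) ^ 2), fun z hz => ?_⟩
  rw [base_eq hc hz]
  refine (norm_sub_le _ _).trans (add_le_add ?_ ?_)
  · rw [norm_div, norm_one, Complex.norm_natCast]
    have : (1 : ℝ) ≤ c := by exact_mod_cast hc
    rw [div_le_one (by linarith)]
    exact this
  · exact tsum_of_norm_bounded (summable_sq.mul_left _).hasSum fun m => zD_le' hc hz m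

theorem base_tendsto {c : ℕ} (hc : 1 ≤ c) (zN : ℕ → ℂ) (h : ∀ᶠ N in atTop, 1 ≤ (zN N).re)
    (h2 : Tendsto (fun N => ‖zN N‖) atTop atTop) :
    Tendsto (fun N => zN N ^ c * Tz 0 c (zN N)) atTop (𝓝 (1 / c)) := by
  have h3 : Tendsto (fun N => ∑' m : ℕ, zN N ^ c * Dy c (zN N + m)) atTop (𝓝 (∑' _ : ℕ, (0 : ℂ))) := by
    refine tendsto_tsum_of_dominated_convergence (summable_sq.mul_left ((c : ℝ) + 1)) ?_ ?_
    · intro m
      have h4 : Tendsto (fun N => ((c : ℝ) + 1) / ‖zN N‖ ^ 2) atTop (𝓝 0) :=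
        Tendsto.div_atTop tendsto_const_nhds ((tendsto_pow_atTop two_ne_zero).comp h2)
      refine squeeze_zero_norm' ?_ h4
      filter_upwards [h] with N hN
      refine (zD_le hc hN m).trans ?_
      have h5 := norm_le_norm_add hN m
      have h6 : 0 < ‖zN N‖ := lt_of_lt_of_le one_pos (hN.trans (Complex.re_le_norm _))
      gcongr
    · filter_upwards [h] with N hN m using zD_le' hc hN m
  rw [tsum_zero] at h3
  have h4 := (tendsto_const_nhds (x := (1 / c : ℂ)) (f := (atTop : Filter ℕ))).sub h3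
  rw [sub_zero] at h4
  refine h4.congr' ?_
  filter_upwards [h] with N hN
  exact (base_eq hc hN).symm

/-- the limit of the row sums -/
noncomputable def bt : ℕ → ℕ → ℝ
  | 0, c => 1 / c
  | l + 1, c => bt l c - bt l (c + 1)

theorem bt_eq (l c : ℕ) (hc : 1 ≤ c) :
    bt l c * ∏ j ∈ Finset.range (l + 1), ((c : ℝ) + j) = l.factorial := by
  induction l generalizing c with
  | zero =>
    have : (c : ℝ) ≠ 0 := by
      rw [Nat.cast_ne_zero]; omega
    simp [bt, this]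
  | succ l ih =>
    have h1 := ih c hc
    have h2 := ih (c + 1) (by omega)
    have h3 : ∏ j ∈ Finset.range (l + 1 + 1), ((c : ℝ) + j) =
        (∏ j ∈ Finset.range (l + 1), ((c : ℝ) + j)) * (c + (l + 1 : ℕ)) :=
      Finset.prod_range_succ _ _
    have h4 : ∏ j ∈ Finset.range (l + 1 + 1), ((c : ℝ) + j) =
        (∏ j ∈ Finset.range (l + 1), (((c + 1 : ℕ) : ℝ) + j)) * c := by
      rw [Finset.prod_range_succ']
      congr 1
      · refine Finset.prod_congr rfl fun j _ => ?_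
        push_cast
        ring
      · simp
    rw [bt, sub_mul]
    conv_lhs => rw [h3]
    conv_lhs => arg 2; rw [← h3, h4]
    rw [← mul_assoc, ← mul_assoc, h1, h2, Nat.factorial_succ]
    push_cast
    ring

theorem bt_pos (l c : ℕ) (hc : 1 ≤ c) : 0 < bt l c := by
  have h1 := bt_eq l c hc
  have hc' : (1 : ℝ) ≤ c := by exact_mod_cast hc
  have h2 : 0 < ∏ j ∈ Finset.range (l + 1), ((c : ℝ) + j) :=
    Finset.prod_pos fun j _ => by positivity
  have h3 : (0 : ℝ) < l.factorial := by exact_mod_cast l.factorial_pos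
  rw [← h1] at h3
  exact pos_of_mul_pos_left h3 h2.le

theorem Tz_bound (l : ℕ) : ∀ c : ℕ, 1 ≤ c →
    ∃ C : ℝ, ∀ z : ℂ, 1 ≤ z.re → ‖z ^ c * Tz l c z‖ ≤ C := by
  induction l with
  | zero => exact fun c hc => base_bound hc
  | succ l ih =>
    intro c hc
    obtain ⟨C1, h1⟩ := ih c hc
    obtain ⟨C2, h2⟩ := ih (c + 1) (by omega)
    refine ⟨C1 + C2, fun z hz => ?_⟩
    have h3 : z ^ c * Tz (l + 1) c z = z ^ c * Tz l c z - z ^ (c + 1) * Tz l (c + 1) z := by
      rw [Tz_succ hc hz]; ring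
    rw [h3]
    exact (norm_sub_le _ _).trans (add_le_add (h1 z hz) (h2 z hz))

theorem Tz_tendsto (zN : ℕ → ℂ) (h : ∀ᶠ N in atTop, 1 ≤ (zN N).re)
    (h2 : Tendsto (fun N => ‖zN N‖) atTop atTop) (l : ℕ) : ∀ c : ℕ, 1 ≤ c →
    Tendsto (fun N => zN N ^ c * Tz l c (zN N)) atTop (𝓝 (bt l c : ℂ)) := by
  induction l with
  | zero =>
    intro c hc
    have := base_tendsto hc zN h h2
    simpa [bt] using this
  | succ l ih =>
    intro c hc
    have h3 := (ih c hc).sub (ih (c + 1) (by omega))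
    have h4 : ((bt (l + 1) c : ℝ) : ℂ) = (bt l c : ℂ) - (bt l (c + 1) : ℂ) := by
      rw [bt]; push_cast; rfl
    rw [h4]
    refine h3.congr' ?_
    filter_upwards [h] with N hN
    rw [Tz_succ hc hN]
    ring

end WBAsyM

open WBM WBAsyM in
theorem specAsy : WBM.SpecAsy := by
  intro p
  have hc : 1 ≤ 2 * p.1 + 2 := by omega
  obtain ⟨C, hC⟩ := Tz_bound p.2 (2 * p.1 + 2) hc
  set c := 2 * p.1 + 2 with hcdef
  refine ⟨∑' k : ℕ, (1 / ((k : ℂ) + 1) ^ c) * (bt p.2 c : ℂ), ?_, fun w => ?_⟩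
  · have h1 : ∑' k : ℕ, (1 / ((k : ℂ) + 1) ^ c) * (bt p.2 c : ℂ) =
        ((∑' k : ℕ, (1 / ((k : ℝ) + 1) ^ c) * bt p.2 c : ℝ) : ℂ) := by
      push_cast
      rfl
    rw [h1, Complex.ofReal_ne_zero]
    have hpos := bt_pos p.2 c hc
    have hs : Summable fun k : ℕ => (1 / ((k : ℝ) + 1) ^ c) * bt p.2 c := by
      refine Summable.mul_right _ (Summable.of_norm_bounded summable_sq fun k => ?_)
      have h0 : (0 : ℝ) ≤ k := by positivity
      rw [Real.norm_of_nonneg (by positivity)]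
      have h4 : ((k : ℝ) + 1) ^ 2 ≤ ((k : ℝ) + 1) ^ c :=
        pow_le_pow_right₀ (by linarith) (by omega)
      gcongr
    exact (hs.tsum_pos (fun k => by positivity) 0 (by positivity)).ne'
  · have hre : Tendsto (fun N : ℕ => ((w : ℂ) + N).re) atTop atTop := by
      have h1 : ∀ N : ℕ, ((w : ℂ) + N).re = (w : ℂ).re + N := fun N => by simp
      simp only [h1]
      exact tendsto_atTop_add_const_left _ _ tendsto_natCast_atTop_atTop
    have hev : ∀ᶠ N : ℕ in atTop, 1 ≤ ((w : ℂ) + N).re := hre.eventually_ge_atTop 1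
    have hkre : ∀ (k : ℕ) (v : ℂ), 1 ≤ v.re → 1 ≤ (((k : ℂ) + 1) * v).re := by
      intro k v hv
      have h1 : (((k : ℂ) + 1) * v).re = ((k : ℝ) + 1) * v.re := by
        rw [Complex.mul_re]
        simp
      have h0 : (0 : ℝ) ≤ k := by positivity
      rw [h1]
      nlinarith
    have hSf : ∀ N : ℕ, ((w : ℂ) + N) ^ c * Sf p (addPt w N) =
        ∑' k : ℕ, (1 / ((k : ℂ) + 1) ^ c) *
          ((((k : ℂ) + 1) * ((w : ℂ) + N)) ^ c * Tz p.2 c (((k : ℂ) + 1) * ((w : ℂ) + N))) := by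
      intro N
      rw [Sf, ← tsum_mul_left]
      refine tsum_congr fun k => ?_
      have hk : ((k : ℂ) + 1) ^ c ≠ 0 := pow_ne_zero _ (Nat.cast_add_one_ne_zero k)
      rw [mul_pow]
      have e1 : Tz p.2 c (((k : ℂ) + 1) * ((w : ℂ) + N)) =
          ∑' m : ℕ, U p (addPt w N) ((k : ℤ) + 1) ((m : ℤ) + 1) := by
        rw [Tz]
        refine tsum_congr fun m => ?_
        rw [U, coe_addPt]
        push_cast
        have e2 : c + 1 + p.2 = 2 * p.1 + 3 + p.2 := by omega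
        rw [e2]
      rw [e1]
      field_simp
    simp only [hSf]
    refine tendsto_tsum_of_dominated_convergence (summable_sq.mul_right C) ?_ ?_
    · intro k
      refine Tendsto.const_mul _ (Tz_tendsto _ ?_ ?_ p.2 c hc)
      · filter_upwards [hev] with N hN using hkre k _ hN
      · refine tendsto_atTop_mono' _ ?_ hre
        filter_upwards [hev] with N hN
        have h1 := Complex.re_le_norm (((k : ℂ) + 1) * ((w : ℂ) + N))
        refine le_trans ?_ h1
        have h2 : (((k : ℂ) + 1) * ((w : ℂ) + N)).re = ((k : ℝ) + 1) * ((w : ℂ) + N).re := by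
          rw [Complex.mul_re]
          simp
        have h0 : (0 : ℝ) ≤ k := by positivity
        rw [h2]
        nlinarith
    · filter_upwards [hev] with N hN k
      have h1 := hC _ (hkre k _ hN)
      rw [norm_mul, norm_div, norm_one, norm_pow]
      have h2 : ‖(k : ℂ) + 1‖ = (k : ℝ) + 1 := by
        have := Complex.norm_natCast (k + 1)
        push_cast at this
        exact this
      have h0 : (0 : ℝ) ≤ k := by positivity
      have h4 : ((k : ℝ) + 1) ^ 2 ≤ ((k : ℝ) + 1) ^ c :=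
        pow_le_pow_right₀ (by linarith) (by omega)
      rw [h2]
      gcongr

end Pool.Agent.Lib.MPd9449f
end

section
/-!
# `SpecWB` and its formal version, without hypotheses
-/
open MvPolynomial

namespace Pool.Agent.Lib.MPd9449f

/-- growth bounds the modular weight -/
theorem specWB : SpecWB := WBM.wb specAsy

/-- formal version -/
theorem wbFormal (G : ℕ × ℕ → PowerSeries ℚ)
    (hG : ∀ p n, PowerSeries.coeff n (G p) =
      (n : ℚ) ^ p.2 * (ArithmeticFunction.sigma (2 * p.1 + 2) n : ℚ))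
    (P : MvPolynomial (ℕ × ℕ) ℚ) (k A : ℝ) (hk : 0 ≤ k)
    (hF : ∀ q : ℂ, ‖q‖ < 1 →
      ‖∑' n, ((PowerSeries.coeff n (aeval G P) : ℚ) : ℂ) * q ^ n‖ ≤ A * (1 - ‖q‖) ^ (-k)) :
    ∀ m ∈ P.support, ((m.sum fun p n => n * wt p : ℕ) : ℝ) ≤ 2 * k :=
  Gr.wb_formal specWB G hG P k A hk hF

end Pool.Agent.Lib.MPd9449f
end
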