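import Mathlib

/-!
# Growth and weight of differential polynomials in odd weight Eisenstein series

`Gfun (a, l)` is the function `D ^ l G_{2a+3}` on the unit disc, where
`G_j = sum sigma_{j-1}(n) q^n`, `D = q d/dq`, and `wt (a, l) = 2a + 3 + 2l` is its modular weight.
-/

open MvPolynomial

namespace Pool.Agent.Lib.MPd9449f

/-- modular weight of `D ^ l G_{2a+3}` -/
def wt (p : ℕ × ℕ) : ℕ := 2 * p.1 + 3 + 2 * p.2

/-- `D ^ l G_{2a+3}` as a function of `q`, `p = (a, l)` -/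
noncomputable def Gfun (p : ℕ × ℕ) (q : ℂ) : ℂ :=
  ∑' n : ℕ, (n : ℂ) ^ p.2 * (ArithmeticFunction.sigma (2 * p.1 + 2) n : ℂ) * q ^ n

/-- a polynomial in the `D ^ l G_j` (`j` odd, at least 3) which is `O((1 - |q|)^(-k))` in the unit
disc has modular weight at most `2 k` -/
def SpecWB : Prop :=
  ∀ (P : MvPolynomial (ℕ × ℕ) ℂ) (k A : ℝ), 0 ≤ k →
    (∀ q : ℂ, ‖q‖ < 1 → ‖aeval (fun p => Gfun p q) P‖ ≤ A * (1 - ‖q‖) ^ (-k)) →
    ∀ m ∈ P.support, ((m.sum fun p n => n * wt p : ℕ) : ℝ) ≤ 2 * k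

end Pool.Agent.Lib.MPd9449f
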